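import Pool.Agent.H341R2.Stepanov

/-!
# Points on the intersection of two quadrics over a prime field
-/

set_option autoImplicit false
open Finset Polynomial

namespace Pool.Agent.NH18.OM

section

variable {F : Type} [Field F]

lemma coeffs (a4 a3 a2 a1 a0 b4 b3 b2 b1 b0 : F)
    (h : (C a4 * X ^ 4 + C a3 * X ^ 3 + C a2 * X ^ 2 + C a1 * X + C a0 : F[X]) =
      C b4 * X ^ 4 + C b3 * X ^ 3 + C b2 * X ^ 2 + C b1 * X + C b0) :
    a4 = b4 ∧ a3 = b3 ∧ a2 = b2 ∧ a1 = b1 ∧ a0 = b0 := by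
  have e4 := congrArg (fun p => coeff p 4) h
  have e3 := congrArg (fun p => coeff p 3) h
  have e2 := congrArg (fun p => coeff p 2) h
  have e1 := congrArg (fun p => coeff p 1) h
  have e0 := congrArg (fun p => coeff p 0) h
  simp [coeff_X, coeff_C] at e4 e3 e2 e1 e0
  exact ⟨e4, e3, e2, e1, e0⟩

/-- `c x² + a` is not a constant times a square if `a ≠ 0` -/
lemma quad_ns (c a : F) (hc : c ≠ 0) (ha : a ≠ 0) (h2 : (2 : F) ≠ 0) (k : F) (h : F[X]) :
    (C c * X ^ 2 + C a : F[X]) ≠ C k * h ^ 2 := by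
  intro heq
  have hd : (C c * X ^ 2 + C a : F[X]).natDegree = 2 := by
    compute_degree!
  have hk : k ≠ 0 := by
    rintro rfl
    rw [heq] at hd
    simp at hd
  have hd2 : (C k * h ^ 2).natDegree = 2 * h.natDegree := by
    rw [natDegree_C_mul hk, natDegree_pow]
  have hdh : h.natDegree = 1 := by
    rw [heq, hd2] at hd
    omega
  obtain ⟨r, hr, s, hs⟩ := natDegree_eq_one.1 hdh
  have hh : C k * h ^ 2 = C 0 * X ^ 4 + C 0 * X ^ 3 + C (k * r ^ 2) * X ^ 2 + C (k * (2 * r * s)) * X + C (k * s ^ 2) := by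
    rw [← hs]
    simp only [map_mul, map_pow, map_ofNat, map_zero]
    ring
  have hl : (C c * X ^ 2 + C a : F[X]) = C 0 * X ^ 4 + C 0 * X ^ 3 + C c * X ^ 2 + C 0 * X + C a := by
    simp
  rw [hh, hl] at heq
  obtain ⟨_, _, _, e1, e0⟩ := coeffs _ _ _ _ _ _ _ _ _ _ heq
  have hs0 : s = 0 := by
    have := e1.symm
    simpa [hk, h2, hr] using this
  apply ha
  rw [e0, hs0]
  ring

/-- `(c₁ x² + a₁) (c₂ x² + a₂)` is not a constant times a square if `c₁ a₂ ≠ c₂ a₁` -/
lemma quart_ns (c1 a1 c2 a2 : F) (hc1 : c1 ≠ 0) (hc2 : c2 ≠ 0) (h2 : (2 : F) ≠ 0) (hne : c1 * a2 ≠ c2 * a1)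
    (k : F) (h : F[X]) :
    ((C c1 * X ^ 2 + C a1) * (C c2 * X ^ 2 + C a2) : F[X]) ≠ C k * h ^ 2 := by
  intro heq
  have hd1 : (C c1 * X ^ 2 + C a1 : F[X]).natDegree = 2 := by
    compute_degree!
  have hd2 : (C c2 * X ^ 2 + C a2 : F[X]).natDegree = 2 := by
    compute_degree!
  have hn1 : (C c1 * X ^ 2 + C a1 : F[X]) ≠ 0 := by
    intro h0; rw [h0] at hd1; simp at hd1
  have hn2 : (C c2 * X ^ 2 + C a2 : F[X]) ≠ 0 := by
    intro h0; rw [h0] at hd2; simp at hd2
  have hd : ((C c1 * X ^ 2 + C a1) * (C c2 * X ^ 2 + C a2) : F[X]).natDegree = 4 := by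
    rw [natDegree_mul hn1 hn2, hd1, hd2]
  have hk : k ≠ 0 := by
    rintro rfl
    rw [heq] at hd
    simp at hd
  have hd3 : (C k * h ^ 2).natDegree = 2 * h.natDegree := by
    rw [natDegree_C_mul hk, natDegree_pow]
  have hdh : h.natDegree = 2 := by
    rw [heq, hd3] at hd
    omega
  have hr0' : h.coeff 2 ≠ 0 := by
    have : h ≠ 0 := by
      intro h0; rw [h0] at hdh; simp at hdh
    have h1 := leadingCoeff_ne_zero.2 this
    rw [leadingCoeff, hdh] at h1
    exact h1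
  have hh0 : h = C (h.coeff 2) * X ^ 2 + C (h.coeff 1) * X + C (h.coeff 0) := by
    conv_lhs => rw [h.as_sum_range_C_mul_X_pow, hdh]
    rw [Finset.sum_range_succ, Finset.sum_range_succ, Finset.sum_range_one]
    simp only [pow_zero, mul_one, pow_one]
    ring
  generalize h.coeff 2 = r at hh0 hr0'
  generalize h.coeff 1 = s at hh0
  generalize h.coeff 0 = t at hh0
  have hL : ((C c1 * X ^ 2 + C a1) * (C c2 * X ^ 2 + C a2) : F[X]) =
      C (c1 * c2) * X ^ 4 + C 0 * X ^ 3 + C (c1 * a2 + c2 * a1) * X ^ 2 + C 0 * X + C (a1 * a2) := by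
    simp only [map_mul, map_add, map_zero]
    ring
  have hR : C k * h ^ 2 = C (k * r ^ 2) * X ^ 4 + C (k * (2 * r * s)) * X ^ 3 + C (k * (2 * r * t + s ^ 2)) * X ^ 2 +
      C (k * (2 * s * t)) * X + C (k * t ^ 2) := by
    rw [hh0]
    simp only [map_mul, map_add, map_pow, map_ofNat]
    ring
  rw [hL, hR] at heq
  obtain ⟨e4, e3, e2, _, e0⟩ := coeffs _ _ _ _ _ _ _ _ _ _ heq
  have hs0 : s = 0 := by
    have := e3.symm
    simpa [hk, h2, hr0'] using this
  rw [hs0] at e2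
  have e5 : (c1 * a2 - c2 * a1) ^ 2 = 0 := by
    have h5 : (c1 * a2 - c2 * a1) ^ 2 = (c1 * a2 + c2 * a1) ^ 2 - 4 * (c1 * c2) * (a1 * a2) := by ring
    rw [h5, e2, e4, e0]
    ring
  exact hne (sub_eq_zero.1 (pow_eq_zero_iff (two_ne_zero) |>.1 e5))

end

section

variable {F : Type} [Field F] [Fintype F] [DecidableEq F]

lemma eta_abs (x : F) : |(quadraticChar F x : ℝ)| ≤ 1 := by
  by_cases h0 : x = 0
  · simp [h0]
  · rcases quadraticChar_dichotomy h0 with h | h <;> simp [h]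

lemma card_sq_eq (a : F) : ((univ.filter (fun x : F => x ^ 2 = a)).card : ℕ) ≤ 2 := by
  by_cases hne : (univ.filter (fun x : F => x ^ 2 = a)).Nonempty
  · obtain ⟨y, hy⟩ := hne
    have hy' : y ^ 2 = a := (Finset.mem_filter.1 hy).2
    have : univ.filter (fun x : F => x ^ 2 = a) ⊆ {y, -y} := by
      intro x hx
      have hx' : x ^ 2 = a := (Finset.mem_filter.1 hx).2
      have h1 : (x - y) * (x + y) = 0 := by linear_combination hx' - hy'
      rcases mul_eq_zero.1 h1 with h | h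
      · rw [Finset.mem_insert]; left; exact sub_eq_zero.1 h
      · rw [Finset.mem_insert, Finset.mem_singleton]; right; exact eq_neg_of_add_eq_zero_left h
    exact (Finset.card_le_card this).trans Finset.card_le_two
  · rw [Finset.not_nonempty_iff_eq_empty.1 hne]; simp

/-- a double sum with few bad rows -/
lemma double_sum (φ : F → F → ℝ) (hφ : ∀ x y, |φ x y| ≤ 1) (B : ℝ) (hB0 : 0 ≤ B) (a : F)
    (h : ∀ y : F, y ^ 2 ≠ a → |∑ x : F, φ x y| ≤ B) :
    |∑ y : F, ∑ x : F, φ x y| ≤ Fintype.card F * B + 2 * Fintype.card F := by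
  refine (Finset.abs_sum_le_sum_abs _ _).trans ?_
  have h1 : ∀ y ∈ (univ : Finset F), |∑ x : F, φ x y| ≤ B + (if y ^ 2 = a then (Fintype.card F : ℝ) else 0) := by
    intro y _
    by_cases hy : y ^ 2 = a
    · rw [if_pos hy]
      have h2 : |∑ x : F, φ x y| ≤ Fintype.card F := by
        refine (Finset.abs_sum_le_sum_abs _ _).trans ?_
        refine (Finset.sum_le_sum fun x _ => hφ x y).trans ?_
        rw [Finset.sum_const, Finset.card_univ, nsmul_eq_mul, mul_one]
      linarith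
    · rw [if_neg hy, add_zero]
      exact h y hy
  refine (Finset.sum_le_sum h1).trans ?_
  rw [Finset.sum_add_distrib, Finset.sum_const, Finset.card_univ, nsmul_eq_mul, ← Finset.sum_filter, Finset.sum_const,
    nsmul_eq_mul]
  have h3 : (((univ.filter (fun x : F => x ^ 2 = a)).card : ℕ) : ℝ) ≤ 2 := by exact_mod_cast card_sq_eq a
  have h4 : (0 : ℝ) ≤ Fintype.card F := by positivity
  nlinarith

lemma quad_sum (hF : ringChar F ≠ 2) (c a : F) (hc : c ≠ 0) (ha : a ≠ 0) :
    |∑ x : F, (quadraticChar F (c * x ^ 2 + a) : ℝ)| ≤ 10 * Real.sqrt (Fintype.card F) := by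
  have h2 : (2 : F) ≠ 0 := Ring.two_ne_zero hF
  have hd : (C c * X ^ 2 + C a : F[X]).natDegree = 2 := by
    compute_degree!
  have h := Pool.Agent.H341R2.weil_bound hF (C c * X ^ 2 + C a : F[X]) (by rw [hd]; norm_num) (quad_ns c a hc ha h2)
  rw [hd] at h
  simp only [eval_add, eval_mul, eval_C, eval_pow, eval_X] at h
  refine h.trans (le_of_eq ?_)
  push_cast
  ring

lemma quart_sum (hF : ringChar F ≠ 2) (c1 a1 c2 a2 : F) (hc1 : c1 ≠ 0) (hc2 : c2 ≠ 0) (hne : c1 * a2 ≠ c2 * a1) :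
    |∑ x : F, (quadraticChar F ((c1 * x ^ 2 + a1) * (c2 * x ^ 2 + a2)) : ℝ)| ≤ 20 * Real.sqrt (Fintype.card F) := by
  have h2 : (2 : F) ≠ 0 := Ring.two_ne_zero hF
  have hd1 : (C c1 * X ^ 2 + C a1 : F[X]).natDegree = 2 := by
    compute_degree!
  have hd2 : (C c2 * X ^ 2 + C a2 : F[X]).natDegree = 2 := by
    compute_degree!
  have hn1 : (C c1 * X ^ 2 + C a1 : F[X]) ≠ 0 := by
    intro h0; rw [h0] at hd1; simp at hd1
  have hn2 : (C c2 * X ^ 2 + C a2 : F[X]) ≠ 0 := by
    intro h0; rw [h0] at hd2; simp at hd2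
  have hd : ((C c1 * X ^ 2 + C a1) * (C c2 * X ^ 2 + C a2) : F[X]).natDegree = 4 := by
    rw [natDegree_mul hn1 hn2, hd1, hd2]
  have h := Pool.Agent.H341R2.weil_bound hF ((C c1 * X ^ 2 + C a1) * (C c2 * X ^ 2 + C a2) : F[X])
    (by rw [hd]; norm_num) (quart_ns c1 a1 c2 a2 hc1 hc2 h2 hne)
  rw [hd] at h
  simp only [eval_add, eval_mul, eval_C, eval_pow, eval_X] at h
  refine h.trans (le_of_eq ?_)
  push_cast
  ring

/-- the number of points of `x₀² + x₁² + x₂² + x₃² = n`, `x₀² + 3 x₁² + 5 x₂² + 7 x₃² = m` -/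
theorem count_two (hF : ringChar F ≠ 2) (h3 : (3 : F) ≠ 0) (n m : F) :
    |(((univ.filter (fun v : Fin 4 → F => ∑ i, v i ^ 2 = n ∧
      v 0 ^ 2 + 3 * v 1 ^ 2 + 5 * v 2 ^ 2 + 7 * v 3 ^ 2 = m)).card : ℕ) : ℝ) - (Fintype.card F : ℝ) ^ 2| ≤
      40 * (Fintype.card F * Real.sqrt (Fintype.card F)) + 6 * Fintype.card F := by
  classical
  have h2 : (2 : F) ≠ 0 := Ring.two_ne_zero hF
  set A : F → F → F := fun x y => (-2) * x ^ 2 + ((m - n) / 2 - 3 * y ^ 2) with hA
  set B : F → F → F := fun x y => 1 * x ^ 2 + ((3 * n - m) / 2 + 2 * y ^ 2) with hB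
  set e : (Fin 4 → F) ≃ F × F × F × F :=
    { toFun := fun v => (v 3, v 2, v 1, v 0)
      invFun := fun p => ![p.2.2.2, p.2.2.1, p.2.1, p.1]
      left_inv := by
        intro v; funext i; fin_cases i <;> rfl
      right_inv := by
        rintro ⟨a, b, c, d⟩; rfl } with he
  have hcond : ∀ v : Fin 4 → F, (∑ i, v i ^ 2 = n ∧ v 0 ^ 2 + 3 * v 1 ^ 2 + 5 * v 2 ^ 2 + 7 * v 3 ^ 2 = m) ↔
      (v 1 ^ 2 = A (v 2) (v 3) ∧ v 0 ^ 2 = B (v 2) (v 3)) := by
    intro v
    rw [Fin.sum_univ_four]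
    simp only [hA, hB]
    have key : ∀ p q : F, p = q ↔ 2 * p = 2 * q := fun p q => (mul_right_inj' h2).symm
    constructor
    · rintro ⟨e1, e2⟩
      constructor
      · rw [key]
        field_simp
        linear_combination e2 - e1
      · rw [key]
        field_simp
        linear_combination 3 * e1 - e2
    · rintro ⟨e1, e2⟩
      rw [key] at e1 e2
      field_simp at e1 e2
      constructor
      · rw [key]
        linear_combination e1 + e2
      · rw [key]
        linear_combination 3 * e1 + e2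
  have hN : (((univ.filter (fun v : Fin 4 → F => ∑ i, v i ^ 2 = n ∧
      v 0 ^ 2 + 3 * v 1 ^ 2 + 5 * v 2 ^ 2 + 7 * v 3 ^ 2 = m)).card : ℕ) : ℝ) =
      ∑ y : F, ∑ x : F, (((quadraticChar F (A x y) : ℝ) + 1) * ((quadraticChar F (B x y) : ℝ) + 1)) := by
    rw [Finset.filter_congr (fun v _ => hcond v), Finset.card_filter]
    push_cast
    rw [Fintype.sum_equiv e (fun v : Fin 4 → F => if (v 1 ^ 2 = A (v 2) (v 3) ∧ v 0 ^ 2 = B (v 2) (v 3)) then (1 : ℝ) else 0)
      (fun p => if (p.2.2.1 ^ 2 = A p.2.1 p.1 ∧ p.2.2.2 ^ 2 = B p.2.1 p.1) then (1 : ℝ) else 0) (fun v => rfl)]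
    rw [Fintype.sum_prod_type]
    apply Finset.sum_congr rfl
    intro y _
    rw [Fintype.sum_prod_type]
    apply Finset.sum_congr rfl
    intro x _
    rw [Fintype.sum_prod_type]
    have hs : ∀ a : F, (∑ t : F, if t ^ 2 = a then (1 : ℝ) else 0) = (quadraticChar F a : ℝ) + 1 := by
      intro a
      have h4 := quadraticChar_card_sqrts hF a
      have h5 : (∑ t : F, if t ^ 2 = a then (1 : ℝ) else 0) = ((univ.filter (fun t : F => t ^ 2 = a)).card : ℝ) := by
        rw [Finset.card_filter]; push_cast; rfl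
      rw [h5]
      have h6 : ({x : F | x ^ 2 = a} : Set F).toFinset = univ.filter (fun t : F => t ^ 2 = a) := by
        ext t; simp
      rw [h6] at h4
      exact_mod_cast h4
    simp only
    rw [← hs, ← hs, Finset.sum_mul_sum]
    apply Finset.sum_congr rfl
    intro t _
    apply Finset.sum_congr rfl
    intro u _
    by_cases c1 : t ^ 2 = A x y <;> by_cases c2 : u ^ 2 = B x y <;> simp [c1, c2]
  rw [hN]
  have hexp : ∑ y : F, ∑ x : F, (((quadraticChar F (A x y) : ℝ) + 1) * ((quadraticChar F (B x y) : ℝ) + 1)) -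
      (Fintype.card F : ℝ) ^ 2 = ∑ y : F, ∑ x : F, (quadraticChar F (A x y) : ℝ) +
      ∑ y : F, ∑ x : F, (quadraticChar F (B x y) : ℝ) + ∑ y : F, ∑ x : F, (quadraticChar F (A x y * B x y) : ℝ) := by
    have h4 : ∀ x y, (((quadraticChar F (A x y) : ℝ) + 1) * ((quadraticChar F (B x y) : ℝ) + 1)) =
        (quadraticChar F (A x y) : ℝ) + (quadraticChar F (B x y) : ℝ) + (quadraticChar F (A x y * B x y) : ℝ) + 1 := by
      intro x y
      rw [map_mul]
      push_cast
      ring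
    simp_rw [h4, Finset.sum_add_distrib]
    simp only [Finset.sum_const, Finset.card_univ, nsmul_eq_mul, mul_one]
    ring
  rw [hexp]
  have s1 : |∑ y : F, ∑ x : F, (quadraticChar F (A x y) : ℝ)| ≤
      Fintype.card F * (10 * Real.sqrt (Fintype.card F)) + 2 * Fintype.card F := by
    apply double_sum (fun x y => (quadraticChar F (A x y) : ℝ)) (fun x y => eta_abs _) _ (by positivity) ((m - n) / 2 / 3)
    intro y hy
    apply quad_sum hF _ _ (by simpa using h2)
    intro h0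
    apply hy
    rw [eq_div_iff h3]
    linear_combination -h0
  have s2 : |∑ y : F, ∑ x : F, (quadraticChar F (B x y) : ℝ)| ≤
      Fintype.card F * (10 * Real.sqrt (Fintype.card F)) + 2 * Fintype.card F := by
    apply double_sum (fun x y => (quadraticChar F (B x y) : ℝ)) (fun x y => eta_abs _) _ (by positivity) (-((3 * n - m) / 2) / 2)
    intro y hy
    apply quad_sum hF _ _ one_ne_zero
    intro h0
    apply hy
    rw [eq_div_iff h2]
    linear_combination h0
  have s3 : |∑ y : F, ∑ x : F, (quadraticChar F (A x y * B x y) : ℝ)| ≤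
      Fintype.card F * (20 * Real.sqrt (Fintype.card F)) + 2 * Fintype.card F := by
    apply double_sum (fun x y => (quadraticChar F (A x y * B x y) : ℝ)) (fun x y => eta_abs _) _ (by positivity) (-((m - n) / 2 + 2 * ((3 * n - m) / 2)))
    intro y hy
    apply quart_sum hF _ _ _ _ (by simpa using h2) one_ne_zero
    intro h0
    apply hy
    linear_combination -h0
  have t1 := abs_add_le (∑ y : F, ∑ x : F, (quadraticChar F (A x y) : ℝ) + ∑ y : F, ∑ x : F, (quadraticChar F (B x y) : ℝ))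
    (∑ y : F, ∑ x : F, (quadraticChar F (A x y * B x y) : ℝ))
  have t2 := abs_add_le (∑ y : F, ∑ x : F, (quadraticChar F (A x y) : ℝ)) (∑ y : F, ∑ x : F, (quadraticChar F (B x y) : ℝ))
  linarith

end

end Pool.Agent.NH18.OM
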