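import Pool.Agent.W65.FS.Final
import Pool.Agent.NH18.OM.L1

/-!
# The local densities `g_l(n)` of `l ∣ p (p - 2)` are `2 / l + O(l ^ (-3/2))`
-/

set_option autoImplicit false
open Finset

namespace Pool.Agent.NH18.OM

open Pool.Agent.W65.FS

/-- classes given by a predicate modulo a prime -/
lemma card_classes (l : ℕ) [NeZero l] (hl : l.Prime) (n : ℕ) (P : (Fin 4 → ZMod l) → Prop) [DecidablePred P] :
    ((Gl n l).filter (fun c => P (fun i => ((c i : ℤ) : ZMod l)))).card =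
      (univ.filter (fun u : Fin 4 → ZMod l => u ≠ 0 ∧ ∑ i, u i ^ 2 = (n : ZMod l) ∧ P u)).card := by
  classical
  have hl0 : (0 : ℤ) < l := by exact_mod_cast hl.pos
  refine Finset.card_bij' (fun c _ => fun i => ((c i : ℤ) : ZMod l)) (fun u _ => fun i => ((u i).val : ℤ)) ?_ ?_ ?_ ?_
  · intro c hc
    rw [Finset.mem_filter, mem_Gl] at hc
    obtain ⟨⟨h1, h2, i, hi⟩, h3⟩ := hc
    rw [Finset.mem_filter]
    refine ⟨mem_univ _, ?_, ?_, h3⟩
    · intro h0
      apply hi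
      rw [← ZMod.intCast_zmod_eq_zero_iff_dvd]
      exact congrFun h0 i
    · have h4 := (ZMod.intCast_zmod_eq_zero_iff_dvd _ l).2 h2
      push_cast at h4
      exact sub_eq_zero.1 h4
  · intro u hu
    rw [Finset.mem_filter] at hu
    obtain ⟨_, h1, h2, h3⟩ := hu
    rw [Finset.mem_filter, mem_Gl]
    refine ⟨⟨fun i => ⟨by positivity, ?_⟩, ?_, ?_⟩, ?_⟩
    · have := ZMod.val_lt (u i)
      exact_mod_cast this
    · rw [← ZMod.intCast_zmod_eq_zero_iff_dvd]
      push_cast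
      simp only [ZMod.natCast_zmod_val]
      rw [h2, sub_self]
    · by_contra h
      push Not at h
      apply h1
      funext i
      have := (ZMod.intCast_zmod_eq_zero_iff_dvd _ l).2 (h i)
      push_cast at this
      rw [ZMod.natCast_zmod_val] at this
      exact this
    · have : (fun i => (((u i).val : ℤ) : ZMod l)) = u := by
        funext i
        push_cast
        exact ZMod.natCast_zmod_val _
      rw [this]
      exact h3
  · intro c hc
    rw [Finset.mem_filter, mem_Gl] at hc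
    funext i
    have h1 := hc.1.1 i
    show ((((c i : ℤ) : ZMod l).val : ℕ) : ℤ) = c i
    rw [ZMod.val_intCast]
    exact Int.emod_eq_of_lt h1.1 h1.2
  · intro u hu
    funext i
    show ((((u i).val : ℤ) : ℤ) : ZMod l) = u i
    push_cast
    exact ZMod.natCast_zmod_val _

lemma card_S (l : ℕ) [NeZero l] [Fact l.Prime] (hl : Odd l) (n : ZMod l) :
    ((univ.filter (fun u : Fin 4 → ZMod l => ∑ i, u i ^ 2 = n)).card : ℝ) =
      (l : ℝ) ^ 3 + (if n = 0 then (l : ℝ) ^ 2 else 0) - l := by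
  have hl0 : (0 : ℝ) < l := by exact_mod_cast (Fact.out : l.Prime).pos
  have h1 := count_quad l hl n
  set S := univ.filter (fun u : Fin 4 → ZMod l => ∑ i, u i ^ 2 = n) with hS
  have h2 : (S.card : ℝ) * l = (l : ℝ) ^ 4 + (l : ℝ) ^ 2 * ((if n = 0 then (l : ℝ) else 0) - 1) := by
    have h3 : (((S.card : ℝ) * l : ℝ) : ℂ) = (((l : ℝ) ^ 4 + (l : ℝ) ^ 2 * ((if n = 0 then (l : ℝ) else 0) - 1) : ℝ) : ℂ) := by
      push_cast
      rw [h1]
      split_ifs <;> push_cast <;> ring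
    exact_mod_cast h3
  apply mul_right_cancel₀ hl0.ne'
  rw [h2]
  split_ifs <;> ring

lemma card_Gl_bounds (l : ℕ) (hlp : l.Prime) (hl2 : l ≠ 2) (n : ℕ) : |((Gl n l).card : ℝ) - (l : ℝ) ^ 3| ≤ (l : ℝ) ^ 2 := by
  classical
  have : NeZero l := ⟨hlp.ne_zero⟩
  have : Fact l.Prime := ⟨hlp⟩
  have hlo : Odd l := hlp.odd_of_ne_two hl2
  have hl1 : (1 : ℝ) ≤ l := by exact_mod_cast hlp.one_lt.le
  have h1 := card_classes l hlp n (fun _ => True)
  rw [Finset.filter_true] at h1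
  have h2 := card_S l hlo (n : ZMod l)
  set S := univ.filter (fun u : Fin 4 → ZMod l => ∑ i, u i ^ 2 = (n : ZMod l)) with hS
  have h3 : univ.filter (fun u : Fin 4 → ZMod l => u ≠ 0 ∧ ∑ i, u i ^ 2 = (n : ZMod l) ∧ True) = S.erase 0 := by
    ext u
    simp [hS]
  rw [h3] at h1
  have h4 : S.card - 1 ≤ (S.erase 0).card := Finset.pred_card_le_card_erase
  have h5 : (S.erase 0).card ≤ S.card := Finset.card_erase_le
  have h6 : (S.card : ℝ) - 1 ≤ (S.erase 0).card := by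
    have : S.card ≤ (S.erase 0).card + 1 := by omega
    have : (S.card : ℝ) ≤ (S.erase 0).card + 1 := by exact_mod_cast this
    linarith
  have h7 : ((S.erase 0).card : ℝ) ≤ S.card := by exact_mod_cast h5
  rw [h1, abs_le]
  have hl3 : (3 : ℝ) ≤ l := by
    have : 3 ≤ l := by have := hlp.two_le; omega
    exact_mod_cast this
  split_ifs at h2 with h0
  · constructor <;> nlinarith
  · constructor <;> nlinarith

lemma card_Bl_bounds (l : ℕ) (hlp : l.Prime) (hl5 : 5 ≤ l) (n : ℕ) :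
    |((Bl ff n l).card : ℝ) - 2 * (l : ℝ) ^ 2| ≤ 93 * (l * Real.sqrt l) := by
  classical
  have : NeZero l := ⟨hlp.ne_zero⟩
  have : Fact l.Prime := ⟨hlp⟩
  have hl2 : l ≠ 2 := by omega
  have hF : ringChar (ZMod l) ≠ 2 := by
    rw [ZMod.ringChar_zmod_n]; exact hl2
  have h3 : (3 : ZMod l) ≠ 0 := by
    intro h
    have h' : ((3 : ℕ) : ZMod l) = 0 := by exact_mod_cast h
    rw [ZMod.natCast_eq_zero_iff] at h'
    have := Nat.le_of_dvd (by norm_num) h'
    omega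
  have h2ne : (2 : ZMod l) ≠ 0 := Ring.two_ne_zero hF
  set Q : (Fin 4 → ZMod l) → ZMod l := fun u => u 0 ^ 2 + 3 * u 1 ^ 2 + 5 * u 2 ^ 2 + 7 * u 3 ^ 2 with hQ
  have hBl : Bl ff n l = (Gl n l).filter (fun c => (fun u : Fin 4 → ZMod l => Q u = 0 ∨ Q u = 2) (fun i => ((c i : ℤ) : ZMod l))) := by
    ext c
    rw [mem_Bl, Finset.mem_filter]
    apply and_congr_right
    intro _
    rw [← ZMod.intCast_zmod_eq_zero_iff_dvd]
    unfold ff pf
    push_cast
    rw [mul_eq_zero, sub_eq_zero]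
  rw [hBl, card_classes l hlp n (fun u : Fin 4 → ZMod l => Q u = 0 ∨ Q u = 2)]
  have hc0 := count_two hF h3 (n : ZMod l) 0
  have hc2 := count_two hF h3 (n : ZMod l) 2
  rw [ZMod.card] at hc0 hc2
  set N0 := univ.filter (fun v : Fin 4 → ZMod l => ∑ i, v i ^ 2 = (n : ZMod l) ∧
      v 0 ^ 2 + 3 * v 1 ^ 2 + 5 * v 2 ^ 2 + 7 * v 3 ^ 2 = 0) with hN0
  set N2 := univ.filter (fun v : Fin 4 → ZMod l => ∑ i, v i ^ 2 = (n : ZMod l) ∧
      v 0 ^ 2 + 3 * v 1 ^ 2 + 5 * v 2 ^ 2 + 7 * v 3 ^ 2 = 2) with hN2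
  have hU : univ.filter (fun u : Fin 4 → ZMod l => u ≠ 0 ∧ ∑ i, u i ^ 2 = (n : ZMod l) ∧ (Q u = 0 ∨ Q u = 2)) =
      (N0 ∪ N2).erase 0 := by
    ext u
    simp only [hN0, hN2, hQ, Finset.mem_filter, Finset.mem_univ, true_and, Finset.mem_erase, Finset.mem_union]
    tauto
  have hdisj : Disjoint N0 N2 := by
    rw [Finset.disjoint_left]
    intro u hu0 hu2
    rw [hN0, Finset.mem_filter] at hu0
    rw [hN2, Finset.mem_filter] at hu2
    have := hu0.2.2.symm.trans hu2.2.2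
    exact h2ne this.symm
  rw [hU]
  set U := N0 ∪ N2 with hUdef
  have hUc : (U.card : ℝ) = N0.card + N2.card := by
    rw [hUdef, Finset.card_union_of_disjoint hdisj]
    push_cast; rfl
  have h4 : U.card - 1 ≤ (U.erase 0).card := Finset.pred_card_le_card_erase
  have h5 : (U.erase 0).card ≤ U.card := Finset.card_erase_le
  have h6 : (U.card : ℝ) - 1 ≤ (U.erase 0).card := by
    have : U.card ≤ (U.erase 0).card + 1 := by omega
    have : (U.card : ℝ) ≤ (U.erase 0).card + 1 := by exact_mod_cast this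
    linarith
  have h7 : ((U.erase 0).card : ℝ) ≤ U.card := by exact_mod_cast h5
  have hl5r : (5 : ℝ) ≤ l := by exact_mod_cast hl5
  have hs2 : (2 : ℝ) ≤ Real.sqrt l := by
    apply Real.le_sqrt_of_sq_le
    linarith
  have h8 : 2 * (l : ℝ) ≤ l * Real.sqrt l := by nlinarith
  have h9 : (1 : ℝ) ≤ l * Real.sqrt l := by linarith
  obtain ⟨a1, a2⟩ := abs_le.1 hc0
  obtain ⟨b1, b2⟩ := abs_le.1 hc2
  rw [abs_le]
  constructor <;> linarith

/-- the local density is `2 / l + O (l ^ (-3 / 2))` -/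
theorem gg_sharp (l : ℕ) (hlp : l.Prime) (hl5 : 5 ≤ l) (n : ℕ) :
    |gg ff n l - 2 / l| ≤ 120 / (l * Real.sqrt l) := by
  have hl2 : l ≠ 2 := by omega
  have hl5r : (5 : ℝ) ≤ l := by exact_mod_cast hl5
  have hG := abs_le.1 (card_Gl_bounds l hlp hl2 n)
  have hB := abs_le.1 (card_Bl_bounds l hlp hl5 n)
  have hl0 : (0 : ℝ) < l := by linarith
  have hs2 : (2 : ℝ) ≤ Real.sqrt l := by
    apply Real.le_sqrt_of_sq_le
    linarith
  have hss : Real.sqrt l * Real.sqrt l = l := Real.mul_self_sqrt hl0.le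
  set s := Real.sqrt (l : ℝ) with hs
  set G : ℝ := ((Gl n l).card : ℝ) with hGd
  set B : ℝ := ((Bl ff n l).card : ℝ) with hBd
  have hGlow : 4 / 5 * (l : ℝ) ^ 3 ≤ G := by nlinarith [mul_pos hl0 hl0]
  have hG0 : 0 < G := by
    have : 0 < 4 / 5 * (l : ℝ) ^ 3 := by positivity
    linarith
  have h1 : gg ff n l - 2 / l = (l * B - 2 * G) / (l * G) := by
    have hgg : gg ff n l = B / G := rfl
    rw [hgg, div_sub_div _ _ hG0.ne' hl0.ne']
    congr 1
    · ring
    · ring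
  rw [h1, abs_div, abs_of_pos (mul_pos hl0 hG0), div_le_div_iff₀ (by positivity) (by positivity)]
  have hl2s : (l : ℝ) ^ 2 ≤ 1 / 2 * ((l : ℝ) ^ 2 * s) := by nlinarith [mul_pos hl0 hl0]
  have h2 : |l * B - 2 * G| ≤ 95 * ((l : ℝ) ^ 2 * s) := by
    rw [abs_le]
    constructor
    · nlinarith
    · nlinarith
  calc |l * B - 2 * G| * (l * s) ≤ (95 * ((l : ℝ) ^ 2 * s)) * (l * s) := by gcongr
    _ = 95 * (l : ℝ) ^ 3 * (s * s) := by ring
    _ = 95 * (l : ℝ) ^ 3 * l := by rw [hss]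
    _ ≤ 120 * (l * (4 / 5 * (l : ℝ) ^ 3)) := by
      have : 0 < (l : ℝ) ^ 3 * l := by positivity
      nlinarith
    _ ≤ 120 * (l * G) := by gcongr

end Pool.Agent.NH18.OM
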