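import Pool.Agent.NH18.OM.L2
import Pool.Agent.H305R2.MertensM

/-!
# The singular products
-/

set_option autoImplicit false
open Finset

namespace Pool.Agent.NH18.OM

open Pool.Agent.W65.FS

/-- primes in `[a, y]` -/
def prim (a y : ℕ) : Finset ℕ := (Icc a y).filter Nat.Prime

lemma mem_prim (a y p : ℕ) : p ∈ prim a y ↔ p.Prime ∧ a ≤ p ∧ p ≤ y := by
  unfold prim
  rw [Finset.mem_filter, Finset.mem_Icc]
  tauto

/-- the proportion of the classes with `p (p - 2)` prime to the odd primes up to `y` -/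
noncomputable def WW (n y : ℕ) : ℝ := ∏ l ∈ prim 3 y, (1 - gg ff n l)

lemma one_sub_gg (l : ℕ) (hl : l.Prime) (hl2 : l ≠ 2) (n : ℕ) : 1 / (l : ℝ) ^ 4 ≤ 1 - gg ff n l := by
  classical
  obtain ⟨c, hc, hcf⟩ := local_ff l hl hl2 n
  have h1 : (Bl ff n l).card + 1 ≤ (Gl n l).card := by
    have hsub : insert c (Bl ff n l) ⊆ Gl n l := by
      intro d hd
      rw [Finset.mem_insert] at hd
      rcases hd with rfl | hd
      · exact hc
      · exact ((mem_Bl _ _ _ _).1 hd).1
    have hcn : c ∉ Bl ff n l := fun h => hcf ((mem_Bl _ _ _ _).1 h).2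
    have := Finset.card_le_card hsub
    rwa [Finset.card_insert_of_notMem hcn] at this
  have hG0 : (0 : ℝ) < (Gl n l).card := by exact_mod_cast Finset.card_pos.2 ⟨c, hc⟩
  have hG4 : ((Gl n l).card : ℝ) ≤ (l : ℝ) ^ 4 := by exact_mod_cast card_Gl_le n l
  have h2 : ((Bl ff n l).card : ℝ) + 1 ≤ (Gl n l).card := by exact_mod_cast h1
  have h3 : 1 - gg ff n l = (((Gl n l).card : ℝ) - (Bl ff n l).card) / (Gl n l).card := by
    unfold gg
    field_simp
  rw [h3]
  calc 1 / (l : ℝ) ^ 4 ≤ 1 / (Gl n l).card := one_div_le_one_div_of_le hG0 hG4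
    _ ≤ _ := by
      apply div_le_div_of_nonneg_right _ hG0.le
      linarith

lemma gg_nonneg (l n : ℕ) : 0 ≤ gg ff n l := by
  unfold gg; positivity

lemma one_sub_pos (l : ℕ) (hl : l.Prime) (hl2 : l ≠ 2) (n : ℕ) : 0 < 1 - gg ff n l := by
  have h1 := one_sub_gg l hl hl2 n
  have : (0 : ℝ) < l := by exact_mod_cast hl.pos
  have h2 : 0 < 1 / (l : ℝ) ^ 4 := by positivity
  linarith

lemma WW_pos (n y : ℕ) : 0 < WW n y := by
  apply Finset.prod_pos
  intro l hl
  rw [mem_prim] at hl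
  exact one_sub_pos l hl.1 (by omega) n

lemma log_small (g : ℝ) (h0 : 0 ≤ g) (h1 : g ≤ 1 / 2) : |Real.log (1 - g) + g| ≤ 2 * g ^ 2 := by
  have hpos : 0 < 1 - g := by linarith
  have h2 : Real.log (1 - g) ≤ -g := by
    have := Real.log_le_sub_one_of_pos hpos
    linarith
  have h3 : -g - 2 * g ^ 2 ≤ Real.log (1 - g) := by
    have h4 := Real.one_sub_inv_le_log_of_pos hpos
    have h5 : -g - 2 * g ^ 2 ≤ 1 - (1 - g)⁻¹ := by
      have h6 : (1 - g)⁻¹ ≤ 1 + g + 2 * g ^ 2 := by
        rw [inv_le_iff_one_le_mul₀ hpos]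
        nlinarith [mul_nonneg h0 h0, mul_nonneg h0 (mul_nonneg h0 (show 0 ≤ 1 - 2 * g by linarith))]
      linarith
    linarith
  rw [abs_le]
  constructor <;> nlinarith

lemma log_term (l : ℕ) (hlp : l.Prime) (hl3 : 3 ≤ l) (n : ℕ) :
    |Real.log (1 - gg ff n l) + 2 / l| ≤ 1000 / (l * Real.sqrt l) := by
  have hl0 : (0 : ℝ) < l := by exact_mod_cast hlp.pos
  have hs0 : 0 < Real.sqrt l := Real.sqrt_pos.2 hl0
  by_cases hbig : 17 ≤ l
  · have hlr : (17 : ℝ) ≤ l := by exact_mod_cast hbig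
    have h8 := gg_bound ff 8 n l hlp (by omega) (Bl_card l hlp (by omega) n)
    push_cast at h8
    have hg : gg ff n l ≤ 1 / 2 := by
      refine h8.2.trans ?_
      rw [div_le_div_iff₀ (by linarith) (by norm_num)]
      linarith
    have h1 := log_small _ h8.1 hg
    have h2 := gg_sharp l hlp (by omega) n
    have h3 : gg ff n l ^ 2 ≤ 100 / (l * Real.sqrt l) := by
      have h4 : gg ff n l ≤ 9 / l := by
        refine h8.2.trans ?_
        rw [div_le_div_iff₀ (by linarith) (by linarith)]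
        linarith
      have h5 : Real.sqrt l ≤ l := by
        rw [Real.sqrt_le_left hl0.le]
        nlinarith
      calc gg ff n l ^ 2 ≤ (9 / (l : ℝ)) ^ 2 := by
            apply pow_le_pow_left₀ h8.1 h4
        _ = 81 / ((l : ℝ) * l) := by ring
        _ ≤ 100 / (l * Real.sqrt l) := by
          apply div_le_div₀ (by norm_num) (by norm_num) (by positivity)
          gcongr
    have h4 : Real.log (1 - gg ff n l) + 2 / l = (Real.log (1 - gg ff n l) + gg ff n l) - (gg ff n l - 2 / l) := by ring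
    rw [h4]
    refine (abs_sub _ _).trans ?_
    have h5 : 1000 / (l * Real.sqrt l) = 200 / (l * Real.sqrt l) + 800 / (l * Real.sqrt l) := by
      rw [← add_div]; norm_num
    have h6 : 2 * (100 / (l * Real.sqrt l)) = 200 / (l * Real.sqrt l) := by ring
    have h7 : 120 / (l * Real.sqrt l) ≤ 800 / (l * Real.sqrt l) := by
      apply div_le_div_of_nonneg_right (by norm_num) (by positivity)
    linarith
  · push Not at hbig
    have hlr : (l : ℝ) ≤ 16 := by exact_mod_cast (show l ≤ 16 by omega)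
    have hl3r : (3 : ℝ) ≤ l := by exact_mod_cast hl3
    have h1 := one_sub_gg l hlp (by omega) n
    have h2 := gg_nonneg l n
    have hpos := one_sub_pos l hlp (by omega) n
    have h3 : Real.log (1 - gg ff n l) ≤ 0 := Real.log_nonpos hpos.le (by linarith)
    have h4 : -(4 * Real.log l) ≤ Real.log (1 - gg ff n l) := by
      have h5 : Real.log (1 / (l : ℝ) ^ 4) = -(4 * Real.log l) := by
        rw [one_div, Real.log_inv, Real.log_pow]
        push_cast; ring
      rw [← h5]
      exact Real.log_le_log (by positivity) h1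
    have h5 : Real.log l ≤ 2.8 := by
      calc Real.log l ≤ Real.log 16 := Real.log_le_log hl0 hlr
        _ = 4 * Real.log 2 := by
          have : (16 : ℝ) = 2 ^ 4 := by norm_num
          rw [this, Real.log_pow]; push_cast; ring
        _ ≤ 2.8 := by
          have := Real.log_two_lt_d9
          linarith
    have h6 : 2 / (l : ℝ) ≤ 1 := by
      rw [div_le_one hl0]; linarith
    have h7 : 0 < 2 / (l : ℝ) := by positivity
    have h8 : (15 : ℝ) ≤ 1000 / (l * Real.sqrt l) := by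
      have h9 : Real.sqrt l ≤ 4 := by
        rw [Real.sqrt_le_left (by norm_num)]
        linarith
      rw [le_div_iff₀ (by positivity)]
      nlinarith
    rw [abs_le]
    constructor <;> linarith

/-- the tails of `∑ l ^ (-3/2)` -/
lemma summable_32 : Summable (fun l : ℕ => 1 / ((l : ℝ) * Real.sqrt l)) := by
  have h := Real.summable_one_div_nat_rpow.2 (show (1 : ℝ) < 3 / 2 by norm_num)
  refine h.congr fun l => ?_
  rcases Nat.eq_zero_or_pos l with rfl | hl
  · simp
  · have hl0 : (0 : ℝ) < l := by exact_mod_cast hl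
    congr 1
    rw [Real.sqrt_eq_rpow]
    conv_rhs => rw [← Real.rpow_one (l : ℝ)]
    rw [← Real.rpow_mul hl0.le, ← Real.rpow_add hl0]
    norm_num

lemma sum_32 (P : Finset ℕ) : ∑ l ∈ P, 1 / ((l : ℝ) * Real.sqrt l) ≤ ∑' l : ℕ, 1 / ((l : ℝ) * Real.sqrt l) :=
  summable_32.sum_le_tsum _ (fun l _ => by positivity)

lemma mertens_y : ∃ C : ℝ, 0 ≤ C ∧ ∀ y : ℕ, 3 ≤ y → |∑ l ∈ prim 3 y, (1 : ℝ) / l - Real.log (Real.log y)| ≤ C := by
  obtain ⟨C, hC⟩ := Pool.Agent.Helper601.Mertens.mertens_inv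
  refine ⟨|C| + 1 / 2, by positivity, ?_⟩
  intro y hy
  have h1 := hC y hy
  have h2 : (Finset.Icc 1 y).filter Nat.Prime = insert 2 (prim 3 y) := by
    ext p
    rw [Finset.mem_filter, Finset.mem_Icc, Finset.mem_insert, mem_prim]
    constructor
    · rintro ⟨⟨h3, h4⟩, h5⟩
      have := h5.two_le
      by_cases h : p = 2
      · left; exact h
      · right; exact ⟨h5, by omega, h4⟩
    · rintro (rfl | ⟨h3, h4, h5⟩)
      · exact ⟨⟨by omega, by omega⟩, Nat.prime_two⟩
      · exact ⟨⟨by omega, h5⟩, h3⟩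
  have h3 : (2 : ℕ) ∉ prim 3 y := by
    rw [mem_prim]; omega
  rw [h2, Finset.sum_insert h3] at h1
  have h4 := le_abs_self C
  rw [abs_le] at h1 ⊢
  push_cast at h1
  constructor <;> linarith [h1.1, h1.2]

/-- **order of magnitude of the singular products, uniformly in `n`** -/
theorem WW_order : ∃ c C : ℝ, 0 < c ∧ 0 < C ∧ ∀ n y : ℕ, 3 ≤ y →
    c / Real.log y ^ 2 ≤ WW n y ∧ WW n y ≤ C / Real.log y ^ 2 := by
  obtain ⟨C1, hC1, hM⟩ := mertens_y
  set C2 : ℝ := ∑' l : ℕ, 1 / ((l : ℝ) * Real.sqrt l) with hC2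
  have hC20 : 0 ≤ C2 := tsum_nonneg fun l => by positivity
  refine ⟨Real.exp (-(2 * C1 + 1000 * C2)), Real.exp (2 * C1 + 1000 * C2), Real.exp_pos _, Real.exp_pos _, ?_⟩
  intro n y hy
  have hyr : (3 : ℝ) ≤ y := by exact_mod_cast hy
  have hlog : 0 < Real.log y := Real.log_pos (by linarith)
  have hW := WW_pos n y
  have h1 : Real.log (WW n y) = ∑ l ∈ prim 3 y, Real.log (1 - gg ff n l) := by
    unfold WW
    rw [Real.log_prod]
    intro l hl
    rw [mem_prim] at hl
    exact (one_sub_pos l hl.1 (by omega) n).ne'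
  have h2 : |Real.log (WW n y) + 2 * ∑ l ∈ prim 3 y, (1 : ℝ) / l| ≤ 1000 * C2 := by
    rw [h1, Finset.mul_sum, ← Finset.sum_add_distrib]
    refine (Finset.abs_sum_le_sum_abs _ _).trans ?_
    calc ∑ l ∈ prim 3 y, |Real.log (1 - gg ff n l) + 2 * (1 / (l : ℝ))|
        ≤ ∑ l ∈ prim 3 y, 1000 * (1 / ((l : ℝ) * Real.sqrt l)) := by
          apply Finset.sum_le_sum
          intro l hl
          rw [mem_prim] at hl
          have := log_term l hl.1 hl.2.1 n
          rw [mul_one_div, mul_one_div]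
          exact this
      _ = 1000 * ∑ l ∈ prim 3 y, (1 / ((l : ℝ) * Real.sqrt l)) := by rw [Finset.mul_sum]
      _ ≤ 1000 * C2 := by
        have := sum_32 (prim 3 y)
        linarith
  have h3 := hM y hy
  have h4 : |Real.log (WW n y) + 2 * Real.log (Real.log y)| ≤ 2 * C1 + 1000 * C2 := by
    rw [abs_le] at h2 h3 ⊢
    constructor <;> linarith [h2.1, h2.2, h3.1, h3.2]
  obtain ⟨h5, h6⟩ := abs_le.1 h4
  have h7 : Real.log y ^ 2 = Real.exp (2 * Real.log (Real.log y)) := by
    rw [two_mul, Real.exp_add, Real.exp_log hlog]; ring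
  have h8 : WW n y = Real.exp (Real.log (WW n y)) := (Real.exp_log hW).symm
  constructor
  · rw [h7, ← Real.exp_sub, h8]
    apply Real.exp_le_exp.2
    linarith
  · rw [h7, ← Real.exp_sub, h8]
    apply Real.exp_le_exp.2
    linarith

end Pool.Agent.NH18.OM
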