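import Pool.Agent.NH18.OM.L4

/-!
# Sieving the primitive representations
-/

set_option autoImplicit false

open Finset

namespace Pool.Agent.NH18.OM

open Pool.Agent.W65.FS

lemma tail_32 (η : ℝ) (hη : 0 < η) : ∃ z0 : ℕ, ∀ P : Finset ℕ, (∀ p ∈ P, z0 ≤ p) →
    ∑ l ∈ P, 1 / ((l : ℝ) * Real.sqrt l) ≤ η := by
  have h := summable_iff_vanishing.1 summable_32 (Metric.ball 0 η) (Metric.ball_mem_nhds 0 hη)
  obtain ⟨s, hs⟩ := h
  refine ⟨s.sup id + 1, ?_⟩
  intro P hP
  have h1 := hs P (by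
    rw [Finset.disjoint_left]
    intro p hp hps
    have h2 := Finset.le_sup (f := id) hps
    have h3 := hP p hp
    simp only [id] at h2
    omega)
  rw [Metric.mem_ball, dist_zero_right, Real.norm_eq_abs] at h1
  exact (le_abs_self _).trans h1.le

/-- the sums over the dyadic groups of primes -/
lemma exists_z0 : ∃ z0 : ℕ, 17 ≤ z0 ∧ ∀ n y j : ℕ,
    ∑ p ∈ (prim (z0 + 1) y).filter (fun p => p ∈ Pool.Agent.Helper112.LP.Gj j), gg ff n p ≤ 1.4 := by
  obtain ⟨C, hC, hM⟩ := Pool.Agent.Helper112.LP.mertens_group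
  obtain ⟨z1, hz1⟩ := tail_32 (1 / 100000) (by norm_num)
  obtain ⟨j0, hj0⟩ := exists_nat_ge (1000 * C)
  have h2pos : 0 < 2 ^ 2 ^ j0 := by positivity
  refine ⟨17 + z1 + 2 ^ 2 ^ j0, by omega, ?_⟩
  intro n y j
  set z0 := 17 + z1 + 2 ^ 2 ^ j0 with hz0
  set P := (prim (z0 + 1) y).filter (fun p => p ∈ Pool.Agent.Helper112.LP.Gj j) with hP
  have hPp : ∀ p ∈ P, p.Prime ∧ z0 + 1 ≤ p ∧ p ∈ Pool.Agent.Helper112.LP.Gj j := by
    intro p hp
    rw [hP, Finset.mem_filter, mem_prim] at hp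
    exact ⟨hp.1.1, hp.1.2.1, hp.2⟩
  have h1 : ∀ p ∈ P, gg ff n p ≤ 2 * (1 / (p : ℝ)) + 120 * (1 / ((p : ℝ) * Real.sqrt p)) := by
    intro p hp
    obtain ⟨h2, h3, _⟩ := hPp p hp
    have h4 := (abs_le.1 (gg_sharp p h2 (by omega) n)).2
    rw [mul_one_div, mul_one_div]
    linarith
  have h2 := Finset.sum_le_sum h1
  rw [Finset.sum_add_distrib, ← Finset.mul_sum, ← Finset.mul_sum] at h2
  have h3 := hz1 P (fun p hp => by have := (hPp p hp).2.1; omega)
  have h4 : ∑ p ∈ P, 1 / (p : ℝ) ≤ 0.6942 := by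
    by_cases hne : P.Nonempty
    · obtain ⟨p, hp⟩ := hne
      obtain ⟨h5, h6, h7⟩ := hPp p hp
      unfold Pool.Agent.Helper112.LP.Gj at h7
      rw [Finset.mem_filter, Finset.mem_Ico] at h7
      have hjj : j0 < j := by
        have h8 : 2 ^ 2 ^ j0 < 2 ^ 2 ^ j := by omega
        have h9 := (Nat.pow_lt_pow_iff_right (by norm_num : 1 < 2)).1 h8
        exact (Nat.pow_lt_pow_iff_right (by norm_num : 1 < 2)).1 h9
      have h8 := (abs_le.1 (hM j (by omega))).2
      have h9 : ∑ p ∈ P, 1 / (p : ℝ) ≤ ∑ l ∈ Pool.Agent.Helper112.LP.Gj j, (1 : ℝ) / l := by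
        apply Finset.sum_le_sum_of_subset_of_nonneg
        · intro p hp
          exact (hPp p hp).2.2
        · intro l _ _
          positivity
      have h10 : C / 2 ^ j ≤ 1 / 1000 := by
        have h11 : (j0 : ℝ) ≤ 2 ^ j := by
          have : j0 ≤ 2 ^ j := by
            have h12 : j < 2 ^ j := Nat.lt_two_pow_self
            omega
          exact_mod_cast this
        rw [div_le_div_iff₀ (by positivity) (by norm_num)]
        linarith
      have h11 := Real.log_two_lt_d9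
      linarith
    · rw [Finset.not_nonempty_iff_eq_empty.1 hne]
      norm_num
  linarith

/-- the error terms -/
lemma sum_err (P : Finset ℕ) (hP : ∀ p ∈ P, p.Prime) (J b : ℕ) (E m : ℝ) (hE : 0 ≤ E) (hm : 0 ≤ m) :
    ((J : ℝ) + 2) * ∑ T ∈ P.powerset.filter (fun T : Finset ℕ => ∏ p ∈ T, p ≤ (2 ^ 2 ^ J) ^ (4 * b + 6)),
      E * (m * ((∏ p ∈ T, p : ℕ) : ℝ)) ^ 15 ≤ 2 * E * m ^ 15 * ((2 ^ 2 ^ J : ℕ) : ℝ) ^ (16 * (4 * b + 6) + 1) := by
  classical
  set z : ℕ := 2 ^ 2 ^ J with hz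
  set k : ℕ := 4 * b + 6 with hk
  have h1 : ∀ T ∈ P.powerset.filter (fun T : Finset ℕ => ∏ p ∈ T, p ≤ z ^ k),
      E * (m * ((∏ p ∈ T, p : ℕ) : ℝ)) ^ 15 ≤ E * (m * (z : ℝ) ^ k) ^ 15 := by
    intro T hT
    have h2 := (Finset.mem_filter.1 hT).2
    have h3 : ((∏ l ∈ T, l : ℕ) : ℝ) ≤ (z : ℝ) ^ k := by exact_mod_cast h2
    gcongr
  have h2 := Finset.sum_le_sum h1
  rw [Finset.sum_const, nsmul_eq_mul] at h2
  have h3 := card_sets P hP (z ^ k)
  have h4 : (((P.powerset.filter (fun T : Finset ℕ => ∏ p ∈ T, p ≤ z ^ k)).card : ℕ) : ℝ) ≤ (z : ℝ) ^ k := by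
    exact_mod_cast h3
  have hJz : (J : ℝ) + 2 ≤ 2 * z := by
    have h5 : J + 2 ≤ 2 * z := by
      have h6 : J < 2 ^ J := Nat.lt_two_pow_self
      have h7 : 2 ^ J < 2 ^ 2 ^ J := Nat.lt_two_pow_self
      omega
    exact_mod_cast h5
  calc ((J : ℝ) + 2) * ∑ T ∈ P.powerset.filter (fun T : Finset ℕ => ∏ p ∈ T, p ≤ z ^ k),
        E * (m * ((∏ p ∈ T, p : ℕ) : ℝ)) ^ 15
      ≤ (2 * z) * ((z : ℝ) ^ k * (E * (m * (z : ℝ) ^ k) ^ 15)) := by
        apply mul_le_mul hJz (h2.trans (by gcongr)) _ (by positivity)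
        apply Finset.sum_nonneg
        intro T _
        positivity
    _ = _ := by
      rw [show 16 * k + 1 = 1 + k + k * 15 by ring, pow_add, pow_add, pow_mul]
      ring

/-- **the sieve**: representations with `p (p - 2)` divisible by the primes in `Q` and by no odd prime up to `y` -/
theorem sieve_all : ∃ z0 : ℕ, ∃ C : ℝ, 0 < C ∧ ∀ (b J n y : ℕ), 15 ≤ b → Odd n → z0 ≤ y → y ≤ 2 ^ 2 ^ J →
    ∀ Q : Finset ℕ, (∀ q ∈ Q, q.Prime ∧ y < q) →
    |(((preps n).filter (fun X => (∀ q ∈ Q, (q : ℤ) ∣ ff X) ∧ ∀ l ∈ prim 3 y, ¬ (l : ℤ) ∣ ff X)).card : ℝ) -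
      ((preps n).card : ℝ) * (∏ q ∈ Q, gg ff n q) * WW n y| ≤
      (1 / 2 : ℝ) ^ b * (((preps n).card : ℝ) * (∏ q ∈ Q, gg ff n q) * WW n y) +
        C * ((∏ q ∈ Q, q : ℕ) : ℝ) ^ 15 * ((2 ^ 2 ^ J : ℕ) : ℝ) ^ (16 * (4 * b + 6) + 1) * (n : ℝ) ^ (19 / 20 : ℝ) := by
  classical
  obtain ⟨z0, hz017, hz0⟩ := exists_z0
  obtain ⟨C, hC, hdist⟩ := distribution
  set T0 : Finset ℕ := prim 3 z0 with hT0
  set M0 : ℕ := ∏ l ∈ T0, l with hM0
  have hT0p : ∀ l ∈ T0, l.Prime ∧ l ≠ 2 ∧ l ≤ z0 := by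
    intro l hl
    rw [hT0, mem_prim] at hl
    exact ⟨hl.1, by omega, hl.2.2⟩
  have hM0pos : 0 < M0 := Finset.prod_pos fun l hl => (hT0p l hl).1.pos
  refine ⟨z0, 2 * C * (M0 : ℝ) ^ 15, by positivity, ?_⟩
  intro b J n y hb hno hy hyJ Q hQ
  have hn : 1 ≤ n := hno.pos
  set P : Finset ℕ := prim (z0 + 1) y with hP
  have hPp : ∀ p ∈ P, p.Prime ∧ z0 < p ∧ p ≤ y := by
    intro p hp
    rw [hP, mem_prim] at hp
    exact ⟨hp.1, by omega, hp.2.2⟩
  have hsplit : prim 3 y = T0 ∪ P := by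
    ext p
    rw [Finset.mem_union, hT0, hP, mem_prim, mem_prim, mem_prim]
    constructor
    · rintro ⟨h1, h2, h3⟩
      by_cases h4 : p ≤ z0
      · left; exact ⟨h1, h2, h4⟩
      · right; exact ⟨h1, by omega, h3⟩
    · rintro (⟨h1, h2, h3⟩ | ⟨h1, h2, h3⟩)
      · exact ⟨h1, h2, by omega⟩
      · exact ⟨h1, by omega, h3⟩
  have hdT0P : Disjoint T0 P := by
    rw [Finset.disjoint_left]
    intro p hp hp'
    have h1 := (hT0p p hp).2.2
    have h2 := (hPp p hp').2.1
    omega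
  set R : ℝ := ((preps n).card : ℝ) with hR
  set A' : Finset (Fin 4 → ℤ) := (preps n).filter (fun X => (∀ q ∈ Q, red q X ∈ Bl ff n q) ∧
    ∀ l ∈ T0, red l X ∉ Bl ff n l) with hA'
  obtain ⟨e, he⟩ := exists_injective_nat (Fin 4 → ℤ)
  set Ω : Finset ℕ := A'.map ⟨e, he⟩ with hΩ
  set hit : ℕ → ℕ → Prop := fun p m => ∀ X, e X = m → red p X ∈ Bl ff n p with hhit
  have hhit' : ∀ p X, hit p (e X) ↔ red p X ∈ Bl ff n p := by
    intro p X
    constructor
    · intro h; exact h X rfl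
    · intro h Y hY
      rw [he hY]; exact h
  set A : ℝ := R * (∏ q ∈ Q, gg ff n q) * ∏ l ∈ T0, (1 - gg ff n l) with hA
  have hA0 : 0 ≤ A := by
    rw [hA]
    apply mul_nonneg (mul_nonneg (by positivity) (Finset.prod_nonneg fun q _ => gg_nonneg q n))
    apply Finset.prod_nonneg
    intro l hl
    exact (one_sub_pos l (hT0p l hl).1 (hT0p l hl).2.1 n).le
  set E : ℝ := C * (n : ℝ) ^ (19 / 20 : ℝ) with hE
  have hE0 : 0 ≤ E := by positivity
  set m : ℝ := ((M0 * ∏ q ∈ Q, q : ℕ) : ℝ) with hm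
  have hm0 : 0 ≤ m := by positivity
  have key : ∀ T ⊆ P,
      |((A'.filter (fun X => ∀ p ∈ T, red p X ∈ Bl ff n p)).card : ℝ) - A * ∏ p ∈ T, gg ff n p| ≤
        E * (m * ((∏ p ∈ T, p : ℕ) : ℝ)) ^ 15 := by
    intro T hT
    have hTQ : Disjoint T Q := by
      rw [Finset.disjoint_left]
      intro p hp hp'
      have h1 := (hPp p (hT hp)).2.2
      have h2 := (hQ p hp').2
      omega
    have hT0TQ : Disjoint T0 (T ∪ Q) := by
      rw [Finset.disjoint_left]
      intro p hp hp'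
      have h1 := (hT0p p hp).2.2
      rw [Finset.mem_union] at hp'
      rcases hp' with h2 | h2
      · have := (hPp p (hT h2)).2.1
        omega
      · have := (hQ p h2).2
        omega
    set S : ℕ → Finset (Fin 4 → ℤ) := fun l => if l ≤ z0 then Gl n l \ Bl ff n l else Bl ff n l with hS
    have hpr : ∀ l ∈ T0 ∪ (T ∪ Q), l.Prime ∧ l ≠ 2 := by
      intro l hl
      rw [Finset.mem_union, Finset.mem_union] at hl
      rcases hl with h | h | h
      · exact ⟨(hT0p l h).1, (hT0p l h).2.1⟩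
      · have := (hPp l (hT h)).2.1
        exact ⟨(hPp l (hT h)).1, by omega⟩
      · have := (hQ l h).2
        exact ⟨(hQ l h).1, by omega⟩
    have hbig : ∀ l ∈ T ∪ Q, ¬ l ≤ z0 := by
      intro l hl
      rw [Finset.mem_union] at hl
      rcases hl with h | h
      · have := (hPp l (hT h)).2.1
        omega
      · have := (hQ l h).2
        omega
    have h1 := hdist n 1 hn one_pos odd_one squarefree_one 0 (good_one n) (T0 ∪ (T ∪ Q))
      (fun l hl => ⟨(hpr l hl).1, fun h => (hpr l hl).1.one_lt.ne' (Nat.dvd_one.1 h), (hpr l hl).2, by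
        obtain ⟨c, hc, _⟩ := local_ff l (hpr l hl).1 (hpr l hl).2 n
        exact ⟨c, hc⟩⟩) S
      (fun l _ c hc => by
        simp only [hS] at hc
        split_ifs at hc with h
        · exact (Finset.mem_sdiff.1 hc).1
        · exact ((mem_Bl ff n l c).1 hc).1)
    rw [prc_one] at h1
    have h2 : (preps n).filter (fun X => ∀ l ∈ T0 ∪ (T ∪ Q), red l X ∈ S l) =
        A'.filter (fun X => ∀ p ∈ T, red p X ∈ Bl ff n p) := by
      ext X
      rw [Finset.mem_filter, Finset.mem_filter, hA', Finset.mem_filter]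
      constructor
      · rintro ⟨hX, h⟩
        refine ⟨⟨hX, ?_, ?_⟩, ?_⟩
        · intro q hq
          have hq' : q ∈ T ∪ Q := Finset.mem_union_right _ hq
          have := h q (Finset.mem_union_right _ hq')
          simp only [hS, if_neg (hbig q hq')] at this
          exact this
        · intro l hl
          have := h l (Finset.mem_union_left _ hl)
          simp only [hS, if_pos (hT0p l hl).2.2] at this
          exact (Finset.mem_sdiff.1 this).2
        · intro q hq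
          have hq' : q ∈ T ∪ Q := Finset.mem_union_left _ hq
          have := h q (Finset.mem_union_right _ hq')
          simp only [hS, if_neg (hbig q hq')] at this
          exact this
      · rintro ⟨⟨hX, h3, h4⟩, h5⟩
        refine ⟨hX, ?_⟩
        intro l hl
        rw [Finset.mem_union] at hl
        rcases hl with h | h
        · simp only [hS, if_pos (hT0p l h).2.2]
          rw [Finset.mem_sdiff]
          refine ⟨?_, h4 l h⟩
          unfold preps at hX
          rw [Finset.mem_filter, mem_reps] at hX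
          exact red_mem n l (hT0p l h).1 X hX.1 hX.2
        · simp only [hS, if_neg (hbig l h)]
          rw [Finset.mem_union] at h
          rcases h with h | h
          · exact h5 l h
          · exact h3 l h
    rw [h2] at h1
    have h3 : ∏ l ∈ T0 ∪ (T ∪ Q), (((S l).card : ℝ) / (Gl n l).card) =
        (∏ l ∈ T0, (1 - gg ff n l)) * ((∏ p ∈ T, gg ff n p) * ∏ q ∈ Q, gg ff n q) := by
      rw [Finset.prod_union hT0TQ, Finset.prod_union hTQ]
      congr 1
      · apply Finset.prod_congr rfl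
        intro l hl
        simp only [hS, if_pos (hT0p l hl).2.2]
        have h4 : Bl ff n l ⊆ Gl n l := fun c hc => ((mem_Bl ff n l c).1 hc).1
        rw [Finset.card_sdiff_of_subset h4, Nat.cast_sub (Finset.card_le_card h4)]
        obtain ⟨c, hc, _⟩ := local_ff l (hT0p l hl).1 (hT0p l hl).2.1 n
        have hG0 : ((Gl n l).card : ℝ) ≠ 0 := by
          exact_mod_cast (Finset.card_pos.2 ⟨c, hc⟩).ne'
        unfold gg
        field_simp
      · congr 1
        · apply Finset.prod_congr rfl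
          intro l hl
          simp only [hS, if_neg (hbig l (Finset.mem_union_left _ hl))]
          rfl
        · apply Finset.prod_congr rfl
          intro l hl
          simp only [hS, if_neg (hbig l (Finset.mem_union_right _ hl))]
          rfl
    rw [h3] at h1
    have h4 : ((∏ l ∈ T0 ∪ (T ∪ Q), l : ℕ) : ℝ) = m * ((∏ p ∈ T, p : ℕ) : ℝ) := by
      rw [Finset.prod_union hT0TQ, Finset.prod_union hTQ, hm, hM0]
      push_cast
      ring
    rw [h4] at h1
    have h5 : R * ((∏ l ∈ T0, (1 - gg ff n l)) * ((∏ p ∈ T, gg ff n p) * ∏ q ∈ Q, gg ff n q)) =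
        A * ∏ p ∈ T, gg ff n p := by
      rw [hA]; ring
    rw [← hR, h5] at h1
    refine h1.trans (le_of_eq ?_)
    rw [hE]
    push_cast
    ring
  have hfl := fLemX 1.4 b J P (gg ff n) (by omega) (by
      have : (15 : ℝ) ≤ b := by exact_mod_cast hb
      linarith)
    (fun p hp => ⟨(hPp p hp).1, by have := (hPp p hp).2.1; omega, (hPp p hp).2.2.trans hyJ⟩)
    (fun p hp => by
      have h1 := hPp p hp
      have h2 := gg_bound ff 8 n p h1.1 (by omega) (Bl_card p h1.1 (by omega) n)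
      refine ⟨h2.1, h2.2.trans ?_⟩
      have h3 : (18 : ℝ) ≤ p := by
        have : 18 ≤ p := by omega
        exact_mod_cast this
      push_cast
      rw [div_le_div_iff₀ (by linarith) (by norm_num)]
      linarith)
    (fun j => hz0 n y j) Ω (fun _ => 1) hit A (fun T => E * (m * ((∏ p ∈ T, p : ℕ) : ℝ)) ^ 15)
    (fun _ _ => zero_le_one) hA0
    (fun T hT _ => by
      have h2 : ∑ m ∈ Ω.filter (fun m => ∀ p ∈ T, hit p m), (1 : ℝ) =
          ((A'.filter (fun X => ∀ p ∈ T, red p X ∈ Bl ff n p)).card : ℝ) := by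
        rw [Finset.sum_const, nsmul_eq_mul, mul_one, hΩ, Finset.filter_map, Finset.card_map]
        congr 2
        ext X
        simp only [Finset.mem_filter, Function.comp, Function.Embedding.coeFn_mk, hhit']
      rw [h2]
      exact key T hT)
  have hdvd : ∀ X ∈ preps n, ∀ l : ℕ, l.Prime → (red l X ∈ Bl ff n l ↔ (l : ℤ) ∣ ff X) := by
    intro X hX l hl
    have hX' := hX
    unfold preps at hX'
    rw [Finset.mem_filter, mem_reps] at hX'
    rw [mem_Bl]
    have h3 := ff_congr l X (red l X) (red_dvd l X)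
    constructor
    · rintro ⟨_, h⟩
      have := dvd_add h3 h
      rwa [sub_add_cancel] at this
    · intro h
      refine ⟨red_mem n l hl X hX'.1 hX'.2, ?_⟩
      have := dvd_sub h h3
      rwa [sub_sub_cancel] at this
  have hScard : ∑ m ∈ Ω.filter (fun m => ∀ p ∈ P, ¬ hit p m), (1 : ℝ) =
      (((preps n).filter (fun X => (∀ q ∈ Q, (q : ℤ) ∣ ff X) ∧ ∀ l ∈ prim 3 y, ¬ (l : ℤ) ∣ ff X)).card : ℝ) := by
    rw [Finset.sum_const, nsmul_eq_mul, mul_one, hΩ, Finset.filter_map, Finset.card_map]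
    congr 2
    ext X
    simp only [Finset.mem_filter, Function.comp, Function.Embedding.coeFn_mk, hhit', hA']
    rw [hsplit]
    constructor
    · rintro ⟨⟨hX, h1, h2⟩, h3⟩
      refine ⟨hX, ?_, ?_⟩
      · intro q hq
        exact (hdvd X hX q (hQ q hq).1).1 (h1 q hq)
      · intro l hl
        rw [Finset.mem_union] at hl
        rcases hl with h | h
        · exact fun h4 => h2 l h ((hdvd X hX l (hT0p l h).1).2 h4)
        · exact fun h4 => h3 l h ((hdvd X hX l (hPp l h).1).2 h4)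
    · rintro ⟨hX, h1, h2⟩
      refine ⟨⟨hX, ?_, ?_⟩, ?_⟩
      · intro q hq
        exact (hdvd X hX q (hQ q hq).1).2 (h1 q hq)
      · intro l h h4
        exact h2 l (Finset.mem_union_left _ h) ((hdvd X hX l (hT0p l h).1).1 h4)
      · intro l h h4
        exact h2 l (Finset.mem_union_right _ h) ((hdvd X hX l (hPp l h).1).1 h4)
  have hfl' : |(((preps n).filter (fun X => (∀ q ∈ Q, (q : ℤ) ∣ ff X) ∧ ∀ l ∈ prim 3 y, ¬ (l : ℤ) ∣ ff X)).card : ℝ) -
      A * ∏ p ∈ P, (1 - gg ff n p)| ≤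
      (1 / 2 : ℝ) ^ b * (A * ∏ p ∈ P, (1 - gg ff n p)) +
        ((J : ℝ) + 2) * ∑ T ∈ P.powerset.filter (fun T : Finset ℕ => ∏ p ∈ T, p ≤ (2 ^ 2 ^ J) ^ (4 * b + 6)),
          E * (m * ((∏ p ∈ T, p : ℕ) : ℝ)) ^ 15 := by
    rw [← hScard]
    convert hfl using 3
  have hAW : A * ∏ p ∈ P, (1 - gg ff n p) = R * (∏ q ∈ Q, gg ff n q) * WW n y := by
    unfold WW
    rw [hsplit, Finset.prod_union hdT0P, hA]
    ring
  rw [hAW] at hfl'
  refine hfl'.trans ?_
  have h6 := sum_err P (fun p hp => (hPp p hp).1) J b E m hE0 hm0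
  have h7 : 2 * E * m ^ 15 * ((2 ^ 2 ^ J : ℕ) : ℝ) ^ (16 * (4 * b + 6) + 1) =
      2 * C * (M0 : ℝ) ^ 15 * ((∏ q ∈ Q, q : ℕ) : ℝ) ^ 15 * ((2 ^ 2 ^ J : ℕ) : ℝ) ^ (16 * (4 * b + 6) + 1) *
        (n : ℝ) ^ (19 / 20 : ℝ) := by
    rw [hE, hm]
    push_cast
    ring
  rw [h7] at h6
  linarith

end Pool.Agent.NH18.OM
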