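import Pool.Agent.NH18.OM.L5

/-!
# The fundamental lemma for all odd numbers
-/

set_option autoImplicit false

open Finset

namespace Pool.Agent.NH18.OM

open Pool.Agent.W65.FS

/-- primitive representations with `p (p - 2)` prime to the odd primes up to `y` -/
noncomputable def RS (n y : ℕ) : Finset (Fin 4 → ℤ) := by
  classical
  exact (preps n).filter (fun X => ∀ l ∈ prim 3 y, ¬ (l : ℤ) ∣ ff X)

lemma mem_RS (n y : ℕ) (X : Fin 4 → ℤ) : X ∈ RS n y ↔ X ∈ preps n ∧ ∀ l ∈ prim 3 y, ¬ (l : ℤ) ∣ ff X := by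
  unfold RS
  rw [Finset.mem_filter]

lemma exists_J (y : ℕ) (hy : 2 ≤ y) : ∃ J : ℕ, y ≤ 2 ^ 2 ^ J ∧ 2 ^ 2 ^ J ≤ y ^ 2 := by
  classical
  have hex : ∃ J : ℕ, y ≤ 2 ^ 2 ^ J := by
    refine ⟨y, ?_⟩
    have h1 : y < 2 ^ y := Nat.lt_two_pow_self
    calc y ≤ 2 ^ y := h1.le
      _ ≤ 2 ^ 2 ^ y := Nat.pow_le_pow_right (by norm_num) h1.le
  refine ⟨Nat.find hex, Nat.find_spec hex, ?_⟩
  rcases Nat.eq_zero_or_pos (Nat.find hex) with h0 | h0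
  · rw [h0]
    norm_num
    nlinarith
  · have h1 := Nat.find_min hex (m := Nat.find hex - 1) (by omega)
    push Not at h1
    have h2 : Nat.find hex = (Nat.find hex - 1) + 1 := by omega
    rw [h2, pow_succ, pow_mul]
    exact Nat.pow_le_pow_left h1.le 2

lemma negligible (a : ℝ) (ha : a < 1) (C η : ℝ) (hη : 0 < η) : ∃ n0 : ℕ, ∀ n : ℕ, Odd n → n0 ≤ n →
    ∀ y : ℕ, 3 ≤ y → y ≤ n → C * (n : ℝ) ^ a ≤ η * (((preps n).card : ℝ) * WW n y) := by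
  obtain ⟨c, C', hc, hC', hW⟩ := WW_order
  set s : ℝ := (1 - a) / 8 with hs
  have hs0 : 0 < s := by rw [hs]; linarith
  obtain ⟨c1, hc1, hlow⟩ := preps_lower (2 * s) (by positivity)
  obtain ⟨n0, hn0⟩ := large_rpow (|C| / (η * (c1 * (c * s ^ 2)))) (4 * s) (by positivity)
  refine ⟨n0 + 3, ?_⟩
  intro n hno hn y hy hyn
  have hn3 : (3 : ℝ) ≤ n := by
    have : 3 ≤ n := by omega
    exact_mod_cast this
  have hnpos : (0 : ℝ) < n := by linarith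
  have h1 := hn0 n (by omega)
  have hK : 0 < η * (c1 * (c * s ^ 2)) := by positivity
  rw [div_le_iff₀ hK] at h1
  have h2 := hlow n hno
  have hyr : (3 : ℝ) ≤ y := by exact_mod_cast hy
  have hly : 0 < Real.log y := Real.log_pos (by linarith)
  have hlyn : Real.log y ≤ Real.log n := Real.log_le_log (by linarith) (by exact_mod_cast hyn)
  have hlog : Real.log n ≤ (n : ℝ) ^ s / s := Real.log_le_rpow_div hnpos.le hs0
  have h3 : c * s ^ 2 * (n : ℝ) ^ (-(2 * s)) ≤ WW n y := by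
    refine le_trans ?_ (hW n y hy).1
    rw [le_div_iff₀ (by positivity)]
    have h4 : Real.log y ^ 2 ≤ ((n : ℝ) ^ s / s) ^ 2 := by
      apply pow_le_pow_left₀ hly.le
      exact hlyn.trans hlog
    calc c * s ^ 2 * (n : ℝ) ^ (-(2 * s)) * Real.log y ^ 2
        ≤ c * s ^ 2 * (n : ℝ) ^ (-(2 * s)) * ((n : ℝ) ^ s / s) ^ 2 := by gcongr
      _ = c * ((n : ℝ) ^ (-(2 * s)) * ((n : ℝ) ^ s) ^ 2) := by
        field_simp
      _ = c := by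
        rw [← Real.rpow_natCast, ← Real.rpow_mul hnpos.le, ← Real.rpow_add hnpos]
        have : -(2 * s) + s * ((2 : ℕ) : ℝ) = 0 := by push_cast; ring
        rw [this, Real.rpow_zero, mul_one]
  have hn4 : 0 ≤ (n : ℝ) ^ (4 * s) := by positivity
  have hna : 0 ≤ (n : ℝ) ^ a := by positivity
  calc C * (n : ℝ) ^ a ≤ |C| * (n : ℝ) ^ a := by gcongr; exact le_abs_self C
    _ ≤ ((n : ℝ) ^ (4 * s) * (η * (c1 * (c * s ^ 2)))) * (n : ℝ) ^ a := by gcongr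
    _ = η * ((c1 * (n : ℝ) ^ (1 - 2 * s)) * (c * s ^ 2 * (n : ℝ) ^ (-(2 * s)))) := by
      have h5 : (n : ℝ) ^ (4 * s) * (n : ℝ) ^ a = (n : ℝ) ^ (1 - 2 * s) * (n : ℝ) ^ (-(2 * s)) := by
        rw [← Real.rpow_add hnpos, ← Real.rpow_add hnpos]
        congr 1
        rw [hs]; ring
      linear_combination (η * (c1 * (c * s ^ 2))) * h5
    _ ≤ η * (((preps n).card : ℝ) * WW n y) := by
      apply mul_le_mul_of_nonneg_left _ hη.le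
      apply mul_le_mul h2 h3 (by positivity) (by positivity)

/-- floor of a power -/
lemma floor_pow (δ : ℝ) (hδ : 0 < δ) (hδ1 : δ ≤ 1) (B : ℕ) : ∃ n0 : ℕ, ∀ n : ℕ, n0 ≤ n →
    B ≤ ⌊(n : ℝ) ^ δ⌋₊ ∧ ⌊(n : ℝ) ^ δ⌋₊ ≤ n := by
  obtain ⟨n0, h⟩ := large_rpow B δ hδ
  refine ⟨n0 + 1, fun n hn => ⟨Nat.le_floor (h n (by omega)), ?_⟩⟩
  have hn1 : (1 : ℝ) ≤ n := by exact_mod_cast (show 1 ≤ n by omega)
  have h1 : (n : ℝ) ^ δ ≤ n := by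
    calc (n : ℝ) ^ δ ≤ (n : ℝ) ^ (1 : ℝ) := Real.rpow_le_rpow_of_exponent_le hn1 hδ1
      _ = n := Real.rpow_one _
  have h2 := Nat.floor_le (show (0 : ℝ) ≤ (n : ℝ) ^ δ by positivity)
  have h3 : ((⌊(n : ℝ) ^ δ⌋₊ : ℕ) : ℝ) ≤ n := h2.trans h1
  exact_mod_cast h3

/-- the size of the error term -/
lemma err_size (δ : ℝ) (b J n y : ℕ) (hn : 1 ≤ n) (hy : y = ⌊(n : ℝ) ^ δ⌋₊) (hJ : 2 ^ 2 ^ J ≤ y ^ 2) :
    ((2 ^ 2 ^ J : ℕ) : ℝ) ^ (16 * (4 * b + 6) + 1) * (n : ℝ) ^ (19 / 20 : ℝ) ≤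
      (n : ℝ) ^ (2 * ((16 * (4 * b + 6) + 1 : ℕ) : ℝ) * δ + 19 / 20) := by
  have hn0 : (0 : ℝ) < n := by exact_mod_cast hn
  set E : ℕ := 16 * (4 * b + 6) + 1 with hE
  have h1 : (y : ℝ) ≤ (n : ℝ) ^ δ := by
    rw [hy]; exact Nat.floor_le (by positivity)
  have h2 : ((2 ^ 2 ^ J : ℕ) : ℝ) ≤ (y : ℝ) ^ 2 := by exact_mod_cast hJ
  calc ((2 ^ 2 ^ J : ℕ) : ℝ) ^ E * (n : ℝ) ^ (19 / 20 : ℝ) ≤ (((n : ℝ) ^ δ) ^ 2) ^ E * (n : ℝ) ^ (19 / 20 : ℝ) := by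
        gcongr
        exact h2.trans (by gcongr)
    _ = (n : ℝ) ^ (2 * (E : ℝ) * δ + 19 / 20) := by
      rw [← pow_mul, ← Real.rpow_natCast, ← Real.rpow_mul hn0.le, ← Real.rpow_add hn0]
      congr 1
      push_cast
      ring

/-- **fundamental lemma for all odd numbers** -/
theorem fundamental (ε : ℝ) (hε : 0 < ε) : ∃ δ0 : ℝ, 0 < δ0 ∧ ∀ δ : ℝ, 0 < δ → δ ≤ δ0 → ∃ n0 : ℕ, ∀ n : ℕ, Odd n →
    n0 ≤ n → |((RS n ⌊(n : ℝ) ^ δ⌋₊).card : ℝ) - ((preps n).card : ℝ) * WW n ⌊(n : ℝ) ^ δ⌋₊| ≤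
      ε * (((preps n).card : ℝ) * WW n ⌊(n : ℝ) ^ δ⌋₊) := by
  classical
  obtain ⟨z0, C, hC, hs⟩ := sieve_all
  obtain ⟨b0, hb0⟩ := exists_pow_lt_of_lt_one (show (0 : ℝ) < ε / 2 by positivity) (show (1 / 2 : ℝ) < 1 by norm_num)
  set b : ℕ := b0 + 15 with hb
  have hbε : (1 / 2 : ℝ) ^ b ≤ ε / 2 := by
    calc (1 / 2 : ℝ) ^ b ≤ (1 / 2 : ℝ) ^ b0 := pow_le_pow_of_le_one (by norm_num) (by norm_num) (by omega)
      _ ≤ _ := hb0.le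
  set E : ℕ := 16 * (4 * b + 6) + 1 with hE
  have hE0 : (1 : ℝ) ≤ E := by exact_mod_cast (show 1 ≤ E by omega)
  refine ⟨1 / (100 * E), by positivity, ?_⟩
  intro δ hδ hδ0
  have hδE : 2 * (E : ℝ) * δ ≤ 1 / 50 := by
    rw [le_div_iff₀ (by positivity)] at hδ0
    linarith
  have hδ1 : δ ≤ 1 := by
    have h0 : δ ≤ E * δ := le_mul_of_one_le_left hδ.le hE0
    have h0' : 2 * (E : ℝ) * δ = 2 * (E * δ) := by ring
    linarith
  obtain ⟨n1, hn1⟩ := negligible (2 * (E : ℝ) * δ + 19 / 20) (by linarith) C (ε / 2) (by positivity)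
  obtain ⟨n2, hn2⟩ := floor_pow δ hδ hδ1 (z0 + 3)
  refine ⟨n1 + n2 + 1, ?_⟩
  intro n hno hn
  obtain ⟨hy1, hy2⟩ := hn2 n (by omega)
  set y := ⌊(n : ℝ) ^ δ⌋₊ with hy
  obtain ⟨J, hJ1, hJ2⟩ := exists_J y (by omega)
  have h1 := hs b J n y (by omega) hno (by omega) hJ1 ∅ (by simp)
  simp only [Finset.notMem_empty, false_imp_iff, implies_true, true_and, Finset.prod_empty, mul_one, Nat.cast_one,
    one_pow] at h1
  have h2 := err_size δ b J n y (by omega) hy hJ2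
  rw [← hE] at h2
  have h3 := hn1 n hno (by omega) y (by omega) hy2
  have h4 : 0 ≤ ((preps n).card : ℝ) * WW n y := mul_nonneg (by positivity) (WW_pos n y).le
  have h5 : C * ((2 ^ 2 ^ J : ℕ) : ℝ) ^ E * (n : ℝ) ^ (19 / 20 : ℝ) ≤ ε / 2 * (((preps n).card : ℝ) * WW n y) := by
    refine le_trans ?_ h3
    rw [mul_assoc]
    gcongr
  have h6 : RS n y = (preps n).filter (fun X => ∀ l ∈ prim 3 y, ¬ (l : ℤ) ∣ ff X) := by
    unfold RS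
    congr
  rw [h6]
  refine h1.trans ?_
  have h7 : (1 / 2 : ℝ) ^ b * (((preps n).card : ℝ) * WW n y) ≤ ε / 2 * (((preps n).card : ℝ) * WW n y) := by
    gcongr
  linarith

end Pool.Agent.NH18.OM
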