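import Pool.Agent.NH18.OM.L6

/-!
# Representations with an explicit number of prime factors
-/

set_option autoImplicit false

open Finset

namespace Pool.Agent.NH18.OM

open Pool.Agent.W65.FS

/-- exponent of the sifting range -/
noncomputable def dl : ℝ := 1 / 2800000

/-- exponent of the medium range -/
noncomputable def th : ℝ := 1 / 325

lemma log_floor (η : ℝ) (hη : 0 < η) : ∃ n0 : ℕ, ∀ n : ℕ, n0 ≤ n →
    (1 - η) * (dl * Real.log n) ≤ Real.log (⌊(n : ℝ) ^ dl⌋₊ : ℕ) := by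
  have hdl : 0 < dl := by unfold dl; norm_num
  obtain ⟨n1, h1⟩ := large_rpow 2 dl hdl
  obtain ⟨n2, h2⟩ := large_rpow (Real.exp (Real.log 2 / (η * dl))) 1 one_pos
  refine ⟨n1 + n2 + 2, ?_⟩
  intro n hn
  have hn0 : (0 : ℝ) < n := by exact_mod_cast (show 0 < n by omega)
  have h3 := h1 n (by omega)
  have h4 := h2 n (by omega)
  rw [Real.rpow_one] at h4
  have h5 : Real.log 2 / (η * dl) ≤ Real.log n := by
    rw [Real.le_log_iff_exp_le hn0]; exact h4
  rw [div_le_iff₀ (by positivity)] at h5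
  have h6 : (n : ℝ) ^ dl / 2 ≤ (⌊(n : ℝ) ^ dl⌋₊ : ℕ) := by
    have := Nat.lt_floor_add_one ((n : ℝ) ^ dl)
    linarith
  have h7 : Real.log ((n : ℝ) ^ dl / 2) ≤ Real.log (⌊(n : ℝ) ^ dl⌋₊ : ℕ) :=
    Real.log_le_log (by positivity) h6
  rw [Real.log_div (by positivity) (by norm_num), Real.log_rpow hn0] at h7
  linarith

/-- the sum of the densities over the medium primes -/
lemma medium : ∃ n0 : ℕ, ∀ n : ℕ, n0 ≤ n →
    ∑ q ∈ prim (⌊(n : ℝ) ^ dl⌋₊ + 1) ⌊(n : ℝ) ^ th⌋₊, gg ff n q ≤ 18.2 := by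
  have hdl : 0 < dl := by unfold dl; norm_num
  have hth : 0 < th := by unfold th; norm_num
  obtain ⟨M, hM⟩ := Pool.Agent.H305R2.mertens_inv_tendsto
  rw [Metric.tendsto_atTop] at hM
  obtain ⟨N1, hN1⟩ := hM (1 / 10000) (by norm_num)
  obtain ⟨z1, hz1⟩ := tail_32 (1 / 100000) (by norm_num)
  obtain ⟨n1, hn1⟩ := floor_pow dl hdl (by unfold dl; norm_num) (N1 + z1 + 5)
  obtain ⟨n2, hn2⟩ := log_floor (1 / 3000) (by norm_num)
  refine ⟨n1 + n2 + 3, ?_⟩
  intro n hn
  have hn3 : (3 : ℝ) ≤ n := by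
    have : 3 ≤ n := by omega
    exact_mod_cast this
  have hnpos : (0 : ℝ) < n := by linarith
  have hlogn : 0 < Real.log n := Real.log_pos (by linarith)
  obtain ⟨hy1, hy2⟩ := hn1 n (by omega)
  have hlog := hn2 n (by omega)
  set y := ⌊(n : ℝ) ^ dl⌋₊ with hy
  set Y := ⌊(n : ℝ) ^ th⌋₊ with hY
  have hyY : y ≤ Y := by
    apply Nat.floor_le_floor
    apply Real.rpow_le_rpow_of_exponent_le (by linarith)
    unfold dl th; norm_num
  have hyr : (5 : ℝ) ≤ y := by
    have : 5 ≤ y := by omega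
    exact_mod_cast this
  have hYr : (5 : ℝ) ≤ Y := by
    have : 5 ≤ Y := by omega
    exact_mod_cast this
  have hly : 0 < Real.log y := Real.log_pos (by linarith)
  have hlY : 0 < Real.log Y := Real.log_pos (by linarith)
  -- bound for each density
  have h1 : ∀ p ∈ prim (y + 1) Y, gg ff n p ≤ 2 * (1 / (p : ℝ)) + 120 * (1 / ((p : ℝ) * Real.sqrt p)) := by
    intro p hp
    rw [mem_prim] at hp
    have h4 := (abs_le.1 (gg_sharp p hp.1 (by omega) n)).2
    rw [mul_one_div, mul_one_div]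
    linarith
  have h2 := Finset.sum_le_sum h1
  rw [Finset.sum_add_distrib, ← Finset.mul_sum, ← Finset.mul_sum] at h2
  have h3 := hz1 (prim (y + 1) Y) (fun p hp => by rw [mem_prim] at hp; omega)
  have h4 : ∑ p ∈ prim (y + 1) Y, 1 / (p : ℝ) = ∑ p ∈ (Finset.Icc 1 Y).filter Nat.Prime, (1 : ℝ) / p -
      ∑ p ∈ (Finset.Icc 1 y).filter Nat.Prime, (1 : ℝ) / p := by
    have h5 : (Finset.Icc 1 Y).filter Nat.Prime = (Finset.Icc 1 y).filter Nat.Prime ∪ prim (y + 1) Y := by
      ext p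
      rw [Finset.mem_union, Finset.mem_filter, Finset.mem_filter, Finset.mem_Icc, Finset.mem_Icc, mem_prim]
      constructor
      · rintro ⟨⟨h6, h7⟩, h8⟩
        by_cases h9 : p ≤ y
        · left; exact ⟨⟨h6, h9⟩, h8⟩
        · right; exact ⟨h8, by omega, h7⟩
      · rintro (⟨⟨h6, h7⟩, h8⟩ | ⟨h6, h7, h8⟩)
        · exact ⟨⟨h6, by omega⟩, h8⟩
        · exact ⟨⟨by omega, h8⟩, h6⟩
    rw [h5, Finset.sum_union]
    · ring
    · rw [Finset.disjoint_left]
      intro p hp hp'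
      rw [Finset.mem_filter, Finset.mem_Icc] at hp
      rw [mem_prim] at hp'
      omega
  have h5 := hN1 Y (by omega)
  have h6 := hN1 y (by omega)
  rw [Real.dist_eq, abs_lt] at h5 h6
  have h7 : ∑ p ∈ prim (y + 1) Y, 1 / (p : ℝ) ≤ Real.log (Real.log Y) - Real.log (Real.log y) + 2 / 10000 := by
    rw [h4]
    linarith [h5.1, h5.2, h6.1, h6.2]
  have h8 : Real.log (Real.log Y) - Real.log (Real.log y) ≤ 9.0634 := by
    rw [← Real.log_div hlY.ne' hly.ne']
    have h9 : Real.log Y ≤ th * Real.log n := by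
      rw [← Real.log_rpow hnpos]
      apply Real.log_le_log (by linarith)
      exact Nat.floor_le (by positivity)
    have h10 : Real.log Y / Real.log y ≤ 8620 := by
      rw [div_le_iff₀ hly]
      refine h9.trans ?_
      have h11 : th * Real.log n ≤ 8620 * ((1 - 1 / 3000) * (dl * Real.log n)) := by
        unfold th dl
        have : (1 / 325 : ℝ) ≤ 8620 * ((1 - 1 / 3000) * (1 / 2800000)) := by norm_num
        calc (1 / 325 : ℝ) * Real.log n ≤ (8620 * ((1 - 1 / 3000) * (1 / 2800000))) * Real.log n := by gcongr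
          _ = _ := by ring
      linarith
    calc Real.log (Real.log Y / Real.log y) ≤ Real.log 8620 := Real.log_le_log (by positivity) h10
      _ = 13 * Real.log 2 + Real.log (8620 / 8192) := by
        have : (8620 : ℝ) = 2 ^ 13 * (8620 / 8192) := by norm_num
        conv_lhs => rw [this]
        rw [Real.log_mul (by norm_num) (by norm_num), Real.log_pow]
        push_cast
        ring
      _ ≤ 9.0634 := by
        have h11 := Real.log_two_lt_d9
        have h12 := Real.log_le_sub_one_of_pos (show (0 : ℝ) < 8620 / 8192 by norm_num)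
        norm_num at h12 ⊢
        linarith
  linarith

/-- large prime factors -/
lemma large_primes (n m Y : ℕ) (hn : (7 : ℝ) < (n : ℝ) ^ th) (hn1 : 1 ≤ n) (hY : Y = ⌊(n : ℝ) ^ th⌋₊) (hm : m ≠ 0)
    (hm7 : m ≤ 7 * n) : (m.primeFactors.filter (fun q => Y < q)).card ≤ 325 := by
  by_contra hlt
  push Not at hlt
  set L := m.primeFactors.filter (fun q => Y < q) with hL
  have hn0 : (0 : ℝ) < n := by exact_mod_cast hn1
  have h1 : ∏ q ∈ L, q ∣ m := by
    refine Dvd.dvd.trans ?_ (Nat.prod_primeFactors_dvd m)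
    exact Finset.prod_dvd_prod_of_subset _ _ _ (Finset.filter_subset _ _)
  have h2 : ∏ q ∈ L, q ≤ m := Nat.le_of_dvd (Nat.pos_of_ne_zero hm) h1
  have h3 : ((n : ℝ) ^ th) ^ L.card ≤ ((∏ q ∈ L, q : ℕ) : ℝ) := by
    push_cast
    rw [← Finset.prod_const]
    apply Finset.prod_le_prod
    · intro q _; positivity
    · intro q hq
      rw [hL, Finset.mem_filter] at hq
      have h4 : Y + 1 ≤ q := hq.2
      have h5 := Nat.lt_floor_add_one ((n : ℝ) ^ th)
      rw [← hY] at h5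
      have h6 : ((Y + 1 : ℕ) : ℝ) ≤ q := by exact_mod_cast h4
      push_cast at h6
      linarith
  have h4 : ((n : ℝ) ^ th) ^ 326 ≤ ((n : ℝ) ^ th) ^ L.card :=
    pow_le_pow_right₀ (by linarith) (by omega)
  have h5 : ((n : ℝ) ^ th) ^ 326 = n * (n : ℝ) ^ th := by
    rw [← Real.rpow_natCast, ← Real.rpow_mul hn0.le]
    have : th * ((326 : ℕ) : ℝ) = 1 + th := by
      unfold th; norm_num
    rw [this, Real.rpow_add hn0, Real.rpow_one]
  have h6 : ((∏ q ∈ L, q : ℕ) : ℝ) ≤ 7 * n := by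
    have : (∏ q ∈ L, q) ≤ 7 * n := h2.trans hm7
    exact_mod_cast this
  nlinarith

lemma ff_odd (n : ℕ) (hn : Odd n) (X : Fin 4 → ℤ) (hX : ∑ i, X i ^ 2 = n) : ¬ (2 : ℤ) ∣ ff X := by
  intro h2
  have h3 := pf_odd n hn X hX
  unfold ff at h2
  rcases (Int.prime_two).dvd_or_dvd h2 with h4 | h4
  · exact h3 h4
  · apply h3
    have := dvd_add h4 (dvd_refl (2 : ℤ))
    simpa using this

lemma mem_preps (n : ℕ) (X : Fin 4 → ℤ) : X ∈ preps n ↔ ∑ i, X i ^ 2 = n ∧ gc X = 1 := by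
  unfold preps
  rw [Finset.mem_filter, mem_reps]

/-- the sifted set in terms of real numbers -/
lemma mem_RS' (n : ℕ) (hn : Odd n) (δ : ℝ) (X : Fin 4 → ℤ) : X ∈ RS n ⌊(n : ℝ) ^ δ⌋₊ ↔
    X ∈ preps n ∧ ∀ q : ℕ, q.Prime → (q : ℤ) ∣ ff X → (n : ℝ) ^ δ < q := by
  rw [mem_RS]
  apply and_congr_right
  intro hX
  rw [mem_preps] at hX
  constructor
  · intro h q hq hqd
    by_contra hle
    push Not at hle
    have hq2 : q ≠ 2 := by
      rintro rfl
      exact ff_odd n hn X hX.1 (by exact_mod_cast hqd)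
    refine h q ?_ hqd
    rw [mem_prim]
    refine ⟨hq, ?_, Nat.le_floor hle⟩
    have := hq.two_le
    omega
  · intro h l hl hld
    rw [mem_prim] at hl
    have h1 := h l hl.1 hld
    have h2 : (l : ℝ) ≤ (⌊(n : ℝ) ^ δ⌋₊ : ℕ) := by exact_mod_cast hl.2.2
    have h3 := Nat.floor_le (show (0 : ℝ) ≤ (n : ℝ) ^ δ by positivity)
    linarith

end Pool.Agent.NH18.OM
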