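import Pool.Agent.NH18.OM.L7

/-!
# The main counts
-/

set_option autoImplicit false

open Finset

namespace Pool.Agent.NH18.OM

open Pool.Agent.W65.FS

/-- number of the medium prime factors -/
noncomputable def med (n y Y : ℕ) (X : Fin 4 → ℤ) : ℕ := by
  classical
  exact ((prim (y + 1) Y).filter (fun q : ℕ => (q : ℤ) ∣ ff X)).card

lemma sum_med (n y Y : ℕ) (S : Finset (Fin 4 → ℤ)) :
    ∑ X ∈ S, (med n y Y X : ℝ) = ∑ q ∈ prim (y + 1) Y, ((S.filter (fun X => (q : ℤ) ∣ ff X)).card : ℝ) := by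
  classical
  unfold med
  simp_rw [Finset.card_filter]
  push_cast
  rw [Finset.sum_comm]

/-- the sifted set has at least the expected size, and few medium prime factors on average -/
theorem good_set : ∃ n0 : ℕ, ∀ n : ℕ, Odd n → n0 ≤ n →
    99 / 100 * (((preps n).card : ℝ) * WW n ⌊(n : ℝ) ^ dl⌋₊) ≤ ((RS n ⌊(n : ℝ) ^ dl⌋₊).card : ℝ) ∧
    ((RS n ⌊(n : ℝ) ^ dl⌋₊).card : ℝ) ≤ 101 / 100 * (((preps n).card : ℝ) * WW n ⌊(n : ℝ) ^ dl⌋₊) ∧
    1 / 50 * (((preps n).card : ℝ) * WW n ⌊(n : ℝ) ^ dl⌋₊) ≤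
      (((RS n ⌊(n : ℝ) ^ dl⌋₊).filter (fun X => med n ⌊(n : ℝ) ^ dl⌋₊ ⌊(n : ℝ) ^ th⌋₊ X ≤ 18)).card : ℝ) := by
  classical
  have hdl : 0 < dl := by unfold dl; norm_num
  have hth : 0 < th := by unfold th; norm_num
  obtain ⟨z0, C, hC, hs⟩ := sieve_all
  set a : ℝ := 2 * ((16 * (4 * 15 + 6) + 1 : ℕ) : ℝ) * dl + 19 / 20 + 16 * th with ha
  have ha1 : a < 1 := by
    rw [ha]; unfold dl th; push_cast; norm_num
  obtain ⟨n1, hn1⟩ := negligible a ha1 C (1 / 1000) (by norm_num)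
  obtain ⟨n2, hn2⟩ := floor_pow dl hdl (by unfold dl; norm_num) (z0 + 3)
  obtain ⟨n3, hn3⟩ := medium
  refine ⟨n1 + n2 + n3 + 1, ?_⟩
  intro n hno hn
  have hnr : (1 : ℝ) ≤ n := by exact_mod_cast hno.pos
  have hn0 : (0 : ℝ) < n := by linarith
  obtain ⟨hy1, hy2⟩ := hn2 n (by omega)
  have hmed := hn3 n (by omega)
  set y := ⌊(n : ℝ) ^ dl⌋₊ with hy
  set Y := ⌊(n : ℝ) ^ th⌋₊ with hY
  obtain ⟨J, hJ1, hJ2⟩ := exists_J y (by omega)
  set V : ℝ := ((preps n).card : ℝ) * WW n y with hV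
  have hV0 : 0 ≤ V := mul_nonneg (by positivity) (WW_pos n y).le
  have herr := err_size dl 15 J n y (by omega) hy hJ2
  set E : ℕ := 16 * (4 * 15 + 6) + 1 with hE
  have hneg := hn1 n hno (by omega) y (by omega) hy2
  rw [← hV] at hneg
  have hb15 : (1 / 2 : ℝ) ^ 15 ≤ 1 / 1000 := by norm_num
  -- the sieve without extra primes
  have h0 := hs 15 J n y le_rfl hno (by omega) hJ1 ∅ (by simp)
  simp only [Finset.notMem_empty, false_imp_iff, implies_true, true_and, Finset.prod_empty, mul_one, Nat.cast_one,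
    one_pow] at h0
  have hRS : RS n y = (preps n).filter (fun X => ∀ l ∈ prim 3 y, ¬ (l : ℤ) ∣ ff X) := by
    unfold RS; congr
  rw [← hRS, ← hE, ← hV] at h0
  have he0 : C * ((2 ^ 2 ^ J : ℕ) : ℝ) ^ E * (n : ℝ) ^ (19 / 20 : ℝ) ≤ 1 / 1000 * V := by
    refine le_trans ?_ hneg
    rw [mul_assoc]
    apply mul_le_mul_of_nonneg_left _ hC.le
    refine herr.trans ?_
    apply Real.rpow_le_rpow_of_exponent_le hnr
    rw [ha]
    linarith
  have h1 := abs_le.1 h0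
  have hlow : 99 / 100 * V ≤ ((RS n y).card : ℝ) := by
    have : (1 / 2 : ℝ) ^ 15 * V ≤ 1 / 1000 * V := mul_le_mul_of_nonneg_right hb15 hV0
    linarith [h1.1]
  have hup : ((RS n y).card : ℝ) ≤ 101 / 100 * V := by
    have : (1 / 2 : ℝ) ^ 15 * V ≤ 1 / 1000 * V := mul_le_mul_of_nonneg_right hb15 hV0
    linarith [h1.2]
  refine ⟨hlow, hup, ?_⟩
  -- the sum over the medium primes
  have hq : ∀ q ∈ prim (y + 1) Y, (((RS n y).filter (fun X => (q : ℤ) ∣ ff X)).card : ℝ) ≤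
      1001 / 1000 * V * gg ff n q + C * (Y : ℝ) ^ 15 * (((2 ^ 2 ^ J : ℕ) : ℝ) ^ E * (n : ℝ) ^ (19 / 20 : ℝ)) := by
    intro q hq
    rw [mem_prim] at hq
    have h2 := hs 15 J n y le_rfl hno (by omega) hJ1 {q} (by
      intro q' hq'
      rw [Finset.mem_singleton] at hq'
      subst hq'
      exact ⟨hq.1, by omega⟩)
    simp only [Finset.mem_singleton, forall_eq, Finset.prod_singleton] at h2
    have h3 : (RS n y).filter (fun X => (q : ℤ) ∣ ff X) =
        (preps n).filter (fun X => (q : ℤ) ∣ ff X ∧ ∀ l ∈ prim 3 y, ¬ (l : ℤ) ∣ ff X) := by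
      rw [hRS, Finset.filter_filter]
      apply Finset.filter_congr
      intro X _
      tauto
    rw [h3]
    have h4 := (abs_le.1 h2).2
    rw [← hE] at h4
    have hg0 := gg_nonneg q n
    have h5 : ((preps n).card : ℝ) * gg ff n q * WW n y = V * gg ff n q := by rw [hV]; ring
    rw [h5] at h4
    have h6 : (1 / 2 : ℝ) ^ 15 * (V * gg ff n q) ≤ 1 / 1000 * (V * gg ff n q) :=
      mul_le_mul_of_nonneg_right hb15 (by positivity)
    have h7 : C * (q : ℝ) ^ 15 * ((2 ^ 2 ^ J : ℕ) : ℝ) ^ E * (n : ℝ) ^ (19 / 20 : ℝ) ≤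
        C * (Y : ℝ) ^ 15 * (((2 ^ 2 ^ J : ℕ) : ℝ) ^ E * (n : ℝ) ^ (19 / 20 : ℝ)) := by
      rw [mul_assoc (C * (q : ℝ) ^ 15)]
      have h8 : (q : ℝ) ≤ Y := by exact_mod_cast hq.2.2
      gcongr
    linarith
  have hsum := Finset.sum_le_sum hq
  rw [← sum_med n y Y (RS n y), Finset.sum_add_distrib, ← Finset.mul_sum, Finset.sum_const, nsmul_eq_mul] at hsum
  have hcard : ((prim (y + 1) Y).card : ℝ) ≤ Y := by
    have : (prim (y + 1) Y).card ≤ Y := by
      unfold prim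
      refine (Finset.card_filter_le _ _).trans ?_
      rw [Nat.card_Icc]
      omega
    exact_mod_cast this
  have hYn : (Y : ℝ) ≤ (n : ℝ) ^ th := Nat.floor_le (by positivity)
  have he1 : ((prim (y + 1) Y).card : ℝ) * (C * (Y : ℝ) ^ 15 * (((2 ^ 2 ^ J : ℕ) : ℝ) ^ E * (n : ℝ) ^ (19 / 20 : ℝ))) ≤
      1 / 1000 * V := by
    refine le_trans ?_ hneg
    calc ((prim (y + 1) Y).card : ℝ) * (C * (Y : ℝ) ^ 15 * (((2 ^ 2 ^ J : ℕ) : ℝ) ^ E * (n : ℝ) ^ (19 / 20 : ℝ)))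
        ≤ (Y : ℝ) * (C * (Y : ℝ) ^ 15 * (n : ℝ) ^ (2 * (E : ℝ) * dl + 19 / 20)) := by gcongr
      _ = C * ((Y : ℝ) ^ 16 * (n : ℝ) ^ (2 * (E : ℝ) * dl + 19 / 20)) := by ring
      _ ≤ C * (((n : ℝ) ^ th) ^ 16 * (n : ℝ) ^ (2 * (E : ℝ) * dl + 19 / 20)) := by gcongr
      _ = C * (n : ℝ) ^ a := by
        rw [← Real.rpow_natCast, ← Real.rpow_mul hn0.le, ← Real.rpow_add hn0]
        congr 2
        rw [ha]
        push_cast
        ring
  have hM : ∑ X ∈ RS n y, (med n y Y X : ℝ) ≤ 18.25 * V := by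
    have h8 : 1001 / 1000 * V * ∑ q ∈ prim (y + 1) Y, gg ff n q ≤ 1001 / 1000 * V * 18.2 :=
      mul_le_mul_of_nonneg_left hmed (by positivity)
    have h9 : 1001 / 1000 * V * 18.2 + 1 / 1000 * V ≤ 18.25 * V := by linarith
    linarith
  -- Markov
  have hbad : 19 * (((RS n y).filter (fun X => ¬ med n y Y X ≤ 18)).card : ℝ) ≤ 18.25 * V := by
    refine le_trans ?_ hM
    calc 19 * (((RS n y).filter (fun X => ¬ med n y Y X ≤ 18)).card : ℝ)
        = ∑ X ∈ (RS n y).filter (fun X => ¬ med n y Y X ≤ 18), (19 : ℝ) := by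
          rw [Finset.sum_const, nsmul_eq_mul]; ring
      _ ≤ ∑ X ∈ (RS n y).filter (fun X => ¬ med n y Y X ≤ 18), (med n y Y X : ℝ) := by
          apply Finset.sum_le_sum
          intro X hX
          rw [Finset.mem_filter] at hX
          have : 19 ≤ med n y Y X := by omega
          exact_mod_cast this
      _ ≤ _ := by
          apply Finset.sum_le_sum_of_subset_of_nonneg (Finset.filter_subset _ _)
          intro X _ _
          positivity
  have hsplit := Finset.card_filter_add_card_filter_not (s := RS n y) (fun X => med n y Y X ≤ 18)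
  have hsplit' : (((RS n y).filter (fun X => med n y Y X ≤ 18)).card : ℝ) +
      (((RS n y).filter (fun X => ¬ med n y Y X ≤ 18)).card : ℝ) = ((RS n y).card : ℝ) := by exact_mod_cast hsplit
  linarith

/-- a representation in the good set has few prime factors -/
lemma few (n : ℕ) (hno : Odd n) (hn3 : 3 ≤ n) (hn7 : (7 : ℝ) < (n : ℝ) ^ th) (X : Fin 4 → ℤ)
    (hX : X ∈ RS n ⌊(n : ℝ) ^ dl⌋₊) (hmed : med n ⌊(n : ℝ) ^ dl⌋₊ ⌊(n : ℝ) ^ th⌋₊ X ≤ 18) :
    (ff X).natAbs.primeFactors.card ≤ 668 := by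
  classical
  rw [mem_RS] at hX
  obtain ⟨hXp, hXr⟩ := hX
  have hXn := ((mem_preps n X).1 hXp).1
  set y := ⌊(n : ℝ) ^ dl⌋₊ with hy
  set Y := ⌊(n : ℝ) ^ th⌋₊ with hY
  have hlow := pf_lower n X hXn
  have hup := pf_upper n X hXn
  have hnz : (3 : ℤ) ≤ n := by exact_mod_cast hn3
  have hpos : 0 < pf X := by linarith
  have hne : pf X - 2 ≠ 0 := by omega
  set m1 := (pf X).natAbs with hm1
  set m2 := (pf X - 2).natAbs with hm2
  have h1 := large_primes n m1 Y hn7 (by omega) hY (Int.natAbs_ne_zero.2 hpos.ne') (by omega)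
  have h2 := large_primes n m2 Y hn7 (by omega) hY (Int.natAbs_ne_zero.2 hne) (by omega)
  have hsub : (ff X).natAbs.primeFactors ⊆ (prim (y + 1) Y).filter (fun q : ℕ => (q : ℤ) ∣ ff X) ∪
      (m1.primeFactors.filter (fun q : ℕ => Y < q) ∪ m2.primeFactors.filter (fun q : ℕ => Y < q)) := by
    intro q hq
    have hqp := Nat.prime_of_mem_primeFactors hq
    have hqd := Nat.dvd_of_mem_primeFactors hq
    have hqd' : (q : ℤ) ∣ ff X := Int.natCast_dvd.2 hqd
    have hq2 : q ≠ 2 := by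
      rintro rfl
      exact ff_odd n hno X hXn (by exact_mod_cast hqd')
    have hqy : y < q := by
      by_contra hle
      push Not at hle
      refine hXr q ?_ hqd'
      rw [mem_prim]
      have := hqp.two_le
      exact ⟨hqp, by omega, hle⟩
    rw [Finset.mem_union, Finset.mem_union]
    by_cases hqY : q ≤ Y
    · left
      rw [Finset.mem_filter, mem_prim]
      exact ⟨⟨hqp, by omega, hqY⟩, hqd'⟩
    · right
      have hpp : Prime (q : ℤ) := Nat.prime_iff_prime_int.1 hqp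
      have hqd2 : (q : ℤ) ∣ pf X * (pf X - 2) := hqd'
      rcases hpp.dvd_or_dvd hqd2 with h | h
      · left
        rw [Finset.mem_filter, Nat.mem_primeFactors]
        exact ⟨⟨hqp, Int.natCast_dvd.1 h, Int.natAbs_ne_zero.2 hpos.ne'⟩, by omega⟩
      · right
        rw [Finset.mem_filter, Nat.mem_primeFactors]
        exact ⟨⟨hqp, Int.natCast_dvd.1 h, Int.natAbs_ne_zero.2 hne⟩, by omega⟩
  have h3 := Finset.card_le_card hsub
  have h4 := Finset.card_union_le ((prim (y + 1) Y).filter (fun q : ℕ => (q : ℤ) ∣ ff X))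
    (m1.primeFactors.filter (fun q : ℕ => Y < q) ∪ m2.primeFactors.filter (fun q : ℕ => Y < q))
  have h5 := Finset.card_union_le (m1.primeFactors.filter (fun q : ℕ => Y < q)) (m2.primeFactors.filter (fun q : ℕ => Y < q))
  have h6 : ((prim (y + 1) Y).filter (fun q : ℕ => (q : ℤ) ∣ ff X)).card ≤ 18 := by
    unfold med at hmed
    convert hmed
  omega

/-- order of magnitude of the singular product in terms of `n` -/
lemma WW_n : ∃ c C : ℝ, 0 < c ∧ 0 < C ∧ ∃ n0 : ℕ, ∀ n : ℕ, n0 ≤ n →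
    c / Real.log n ^ 2 ≤ WW n ⌊(n : ℝ) ^ dl⌋₊ ∧ WW n ⌊(n : ℝ) ^ dl⌋₊ ≤ C / Real.log n ^ 2 := by
  have hdl : 0 < dl := by unfold dl; norm_num
  obtain ⟨c, C, hc, hC, hW⟩ := WW_order
  obtain ⟨n1, hn1⟩ := floor_pow dl hdl (by unfold dl; norm_num) 3
  obtain ⟨n2, hn2⟩ := log_floor (1 / 2) (by norm_num)
  refine ⟨c, C / (dl / 2) ^ 2, hc, by positivity, n1 + n2 + 3, ?_⟩
  intro n hn
  obtain ⟨h1, h2⟩ := hn1 n (by omega)
  have h3 := hn2 n (by omega)
  have hn3 : (3 : ℝ) ≤ n := by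
    have : 3 ≤ n := by omega
    exact_mod_cast this
  have hlogn : 0 < Real.log n := Real.log_pos (by linarith)
  set y := ⌊(n : ℝ) ^ dl⌋₊ with hy
  obtain ⟨h4, h5⟩ := hW n y h1
  have hyr : (3 : ℝ) ≤ y := by exact_mod_cast h1
  have hly : 0 < Real.log y := Real.log_pos (by linarith)
  have hlyn : Real.log y ≤ Real.log n := Real.log_le_log (by linarith) (by exact_mod_cast h2)
  constructor
  · refine le_trans ?_ h4
    apply div_le_div_of_nonneg_left hc.le (by positivity)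
    exact pow_le_pow_left₀ hly.le hlyn 2
  · refine h5.trans ?_
    have h6 : (dl / 2 * Real.log n) ^ 2 ≤ Real.log y ^ 2 := by
      apply pow_le_pow_left₀ (by positivity)
      linarith
    rw [div_div, ← mul_pow]
    exact div_le_div_of_nonneg_left hC.le (by positivity) h6

/-- representations with both numbers prime are primitive and in the sifted set -/
lemma twin_mem (n : ℕ) (hno : Odd n) (hn : (n : ℝ) ^ dl < (n : ℝ) - 2) (X : Fin 4 → ℤ) (hX : ∑ i, X i ^ 2 = n)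
    (h1 : (pf X).natAbs.Prime) (h2 : (pf X - 2).natAbs.Prime) : X ∈ RS n ⌊(n : ℝ) ^ dl⌋₊ := by
  rw [mem_RS' n hno, mem_preps]
  refine ⟨⟨hX, ?_⟩, ?_⟩
  · by_contra hne
    obtain ⟨l, hl, hld⟩ := Nat.exists_prime_and_dvd hne
    have h4 := (dvd_gc l X).1 hld
    have h5 : ((l : ℤ) ^ 2) ∣ pf X := by
      unfold pf
      have h6 := fun i => pow_dvd_pow_of_dvd (h4 i) 2
      exact dvd_add (dvd_add (dvd_add (h6 0) ((h6 1).mul_left _)) ((h6 2).mul_left _)) ((h6 3).mul_left _)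
    have h6 : l ^ 2 ∣ (pf X).natAbs := by
      have := Int.natAbs_dvd_natAbs.2 h5
      rwa [Int.natAbs_pow, Int.natAbs_natCast] at this
    have h7 : l * l ∣ (pf X).natAbs := by rwa [sq] at h6
    rcases (Nat.dvd_prime h1).1 h7 with h8 | h8
    · have := hl.two_le
      nlinarith
    · rw [← h8] at h1
      exact Nat.not_prime_mul hl.one_lt.ne' hl.one_lt.ne' h1
  · intro q hq hqd
    have hlow := pf_lower n X hX
    have hlowr : (n : ℝ) ≤ ((pf X : ℤ) : ℝ) := by exact_mod_cast hlow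
    have hqp : Prime (q : ℤ) := Nat.prime_iff_prime_int.1 hq
    have hqd2 : (q : ℤ) ∣ pf X * (pf X - 2) := hqd
    have habs : ∀ a : ℤ, (q : ℤ) ∣ a → a.natAbs.Prime → (a : ℝ) ≤ q := by
      intro a ha hap
      have h3 : q ∣ a.natAbs := Int.natCast_dvd.1 ha
      have h4 : q = a.natAbs := (Nat.prime_dvd_prime_iff_eq hq hap).1 h3
      have h5 : a ≤ (q : ℤ) := by
        rw [h4]; exact Int.le_natAbs
      exact_mod_cast h5
    rcases hqp.dvd_or_dvd hqd2 with h | h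
    · have := habs _ h h1
      linarith
    · have := habs _ h h2
      push_cast at this
      linarith

lemma pow_lt_sub : ∃ n0 : ℕ, ∀ n : ℕ, n0 ≤ n → (n : ℝ) ^ dl < (n : ℝ) - 2 := by
  obtain ⟨n1, hn1⟩ := large_rpow 4 (1 / 2) (by norm_num)
  refine ⟨n1 + 16, ?_⟩
  intro n hn
  have h1 := hn1 n (by omega)
  have hn16 : (16 : ℝ) ≤ n := by
    have : 16 ≤ n := by omega
    exact_mod_cast this
  have hn0 : (0 : ℝ) < n := by linarith
  have h2 : (n : ℝ) ^ dl ≤ (n : ℝ) ^ (1 / 2 : ℝ) := by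
    apply Real.rpow_le_rpow_of_exponent_le (by linarith)
    unfold dl; norm_num
  have h3 : (n : ℝ) = (n : ℝ) ^ (1 / 2 : ℝ) * (n : ℝ) ^ (1 / 2 : ℝ) := by
    rw [← Real.rpow_add hn0]; norm_num
  nlinarith

/-- **main counts** -/
theorem main_counts : ∃ c C : ℝ, 0 < c ∧ 0 < C ∧ ∃ n0 : ℕ, ∀ n : ℕ, Odd n → n0 ≤ n →
    (∃ S : Finset (Fin 4 → ℤ), c * ((preps n).card : ℝ) / Real.log n ^ 2 ≤ (S.card : ℝ) ∧
      ∀ X ∈ S, X ∈ preps n ∧ (∀ q : ℕ, q.Prime → (q : ℤ) ∣ ff X → (n : ℝ) ^ dl < q) ∧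
        (ff X).natAbs.primeFactors.card ≤ 668) ∧
    (∀ S : Finset (Fin 4 → ℤ), (∀ X ∈ S, X ∈ preps n ∧ ∀ q : ℕ, q.Prime → (q : ℤ) ∣ ff X → (n : ℝ) ^ dl < q) →
      (S.card : ℝ) ≤ C * ((preps n).card : ℝ) / Real.log n ^ 2) ∧
    (∀ S : Finset (Fin 4 → ℤ), (∀ X ∈ S, ∑ i, X i ^ 2 = n ∧ (pf X).natAbs.Prime ∧ (pf X - 2).natAbs.Prime) →
      (S.card : ℝ) ≤ C * ((preps n).card : ℝ) / Real.log n ^ 2) := by
  classical
  have hth : 0 < th := by unfold th; norm_num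
  obtain ⟨n1, hn1⟩ := good_set
  obtain ⟨c, C, hc, hC, n2, hn2⟩ := WW_n
  obtain ⟨n3, hn3⟩ := large_rpow 8 th hth
  obtain ⟨n4, hn4⟩ := pow_lt_sub
  refine ⟨c / 50, 101 / 100 * C, by positivity, by positivity, n1 + n2 + n3 + n4 + 3, ?_⟩
  intro n hno hn
  obtain ⟨h1, h2, h3⟩ := hn1 n hno (by omega)
  obtain ⟨h4, h5⟩ := hn2 n (by omega)
  have h6 := hn3 n (by omega)
  have h7 := hn4 n (by omega)
  set y := ⌊(n : ℝ) ^ dl⌋₊ with hy
  set Y := ⌊(n : ℝ) ^ th⌋₊ with hY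
  have hR : (0 : ℝ) ≤ ((preps n).card : ℝ) := by positivity
  have hupper : ∀ S : Finset (Fin 4 → ℤ), S ⊆ RS n y → (S.card : ℝ) ≤ 101 / 100 * C * ((preps n).card : ℝ) / Real.log n ^ 2 := by
    intro S hS
    have h8 : (S.card : ℝ) ≤ ((RS n y).card : ℝ) := by exact_mod_cast Finset.card_le_card hS
    have h9 : ((preps n).card : ℝ) * WW n y ≤ ((preps n).card : ℝ) * (C / Real.log n ^ 2) :=
      mul_le_mul_of_nonneg_left h5 hR
    have h10 : 101 / 100 * C * ((preps n).card : ℝ) / Real.log n ^ 2 =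
        101 / 100 * (((preps n).card : ℝ) * (C / Real.log n ^ 2)) := by ring
    rw [h10]
    linarith
  refine ⟨⟨(RS n y).filter (fun X => med n y Y X ≤ 18), ?_, ?_⟩, ?_, ?_⟩
  · refine le_trans ?_ h3
    have h9 : ((preps n).card : ℝ) * (c / Real.log n ^ 2) ≤ ((preps n).card : ℝ) * WW n y :=
      mul_le_mul_of_nonneg_left h4 hR
    have h10 : c / 50 * ((preps n).card : ℝ) / Real.log n ^ 2 = 1 / 50 * (((preps n).card : ℝ) * (c / Real.log n ^ 2)) := by
      ring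
    rw [h10]
    linarith
  · intro X hX
    rw [Finset.mem_filter] at hX
    have h8 := (mem_RS' n hno dl X).1 hX.1
    refine ⟨h8.1, h8.2, ?_⟩
    exact few n hno (by omega) (by linarith) X hX.1 hX.2
  · intro S hS
    apply hupper
    intro X hX
    exact (mem_RS' n hno dl X).2 (hS X hX)
  · intro S hS
    apply hupper
    intro X hX
    obtain ⟨h8, h9, h10⟩ := hS X hX
    exact twin_mem n hno h7 X h8 h9 h10

end Pool.Agent.NH18.OM
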